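import Pool.Agent.H919R4.ZS.Defs

/-!
# Chain maps of finite type over self-maps of a group
-/

set_option autoImplicit false

namespace Pool.Agent.R779.CT

open scoped Matrix
open Pool.Agent.H919R4.ZS (FinRes augm)

variable {G : Type} [Group G]

/-- chains -/
abbrev Ch (G : Type) [Group G] (n : ℕ) : Type := Fin n → MonoidAlgebra ℤ G

/-- group elements in the group ring -/
noncomputable def sg (u : G) : MonoidAlgebra ℤ G := MonoidAlgebra.single u 1

theorem sg_mul (u v : G) : sg (u * v) = sg u * sg v := by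
  simp [sg, MonoidAlgebra.single_mul_single]

theorem sg_one : (sg 1 : MonoidAlgebra ℤ G) = 1 := rfl

/-- basis element `g e_κ` -/
noncomputable def bs {n : ℕ} (g : G) (κ : Fin n) : Ch G n := Pi.single κ (sg g)

theorem sg_smul_bs {n : ℕ} (u g : G) (κ : Fin n) : sg u • (bs g κ : Ch G n) = bs (u * g) κ := by
  rw [bs, bs, ← Pi.single_smul, smul_eq_mul, sg_mul]

theorem bs_eq {n : ℕ} (g : G) (κ : Fin n) : (bs g κ : Ch G n) = sg g • bs 1 κ := by
  rw [sg_smul_bs, mul_one]

/-- additive maps are determined by their values on the basis -/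
theorem hom_ext {n : ℕ} {A : Type*} [AddCommGroup A] {f f' : Ch G n →+ A}
    (h : ∀ g κ, f (bs g κ) = f' (bs g κ)) : f = f' := by
  refine AddMonoidHom.functions_ext _ _ _ fun κ x => ?_
  have key : f.comp (AddMonoidHom.single (fun _ : Fin n => MonoidAlgebra ℤ G) κ) =
      f'.comp (AddMonoidHom.single (fun _ : Fin n => MonoidAlgebra ℤ G) κ) := by
    refine MonoidAlgebra.addMonoidHom_ext fun g c => ?_
    have h1 : (MonoidAlgebra.single g c : MonoidAlgebra ℤ G) = c • sg g := by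
      simp [sg]
    rw [h1, map_zsmul, map_zsmul]
    congr 1
    exact h g κ
  exact DFunLike.congr_fun key x

/-- induction over chains -/
theorem ch_induction {n : ℕ} (p : Ch G n → Prop) (h0 : p 0) (ha : ∀ x y, p x → p y → p (x + y))
    (hn : ∀ x, p x → p (-x)) (hb : ∀ g κ, p (bs g κ)) (x : Ch G n) : p x := by
  let S : AddSubgroup (Ch G n) :=
    { carrier := {x | p x}
      zero_mem' := h0
      add_mem' := fun {x y} hx hy => ha x y hx hy
      neg_mem' := fun {x} hx => hn x hx }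
  have h1 : (QuotientAddGroup.mk' S : Ch G n →+ _) = 0 := by
    refine hom_ext fun g κ => ?_
    rw [AddMonoidHom.zero_apply, QuotientAddGroup.mk'_apply, QuotientAddGroup.eq_zero_iff]
    exact hb g κ
  have h2 := DFunLike.congr_fun h1 x
  rw [AddMonoidHom.zero_apply, QuotientAddGroup.mk'_apply, QuotientAddGroup.eq_zero_iff] at h2
  exact h2

/-- the additive map given on the basis -/
noncomputable def ev {n : ℕ} {A : Type*} [AddCommGroup A] (w : G → Fin n → A) : Ch G n →+ A :=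
  ∑ κ, ((Finsupp.liftAddHom fun g => zmultiplesHom A (w g κ)).comp
    (MonoidAlgebra.coeffAddEquiv (R := ℤ) (M := G)).toAddMonoidHom).comp
      (Pi.evalAddMonoidHom (fun _ : Fin n => MonoidAlgebra ℤ G) κ)

theorem ev_apply {n : ℕ} {A : Type*} [AddCommGroup A] (w : G → Fin n → A) (x : Ch G n) :
    ev w x = ∑ κ, (x κ).coeff.sum fun g c => c • w g κ := by
  rw [ev, AddMonoidHom.finsetSum_apply]
  rfl

theorem ev_bs {n : ℕ} {A : Type*} [AddCommGroup A] (w : G → Fin n → A) (g : G) (κ : Fin n) :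
    ev w (bs g κ) = w g κ := by
  classical
  rw [ev_apply, Finset.sum_eq_single κ]
  · rw [bs, Pi.single_eq_same, sg, MonoidAlgebra.coeff_single, Finsupp.sum_single_index]
    · exact one_zsmul _
    · exact zero_zsmul _
  · intro κ' _ h
    rw [bs, Pi.single_eq_of_ne h]
    simp
  · intro h
    exact absurd (Finset.mem_univ κ) h

/-- `(ev w) (u x)` -/
theorem ev_smul {n : ℕ} {A : Type*} [AddCommGroup A] (w : G → Fin n → A) (u : G) (x : Ch G n) :
    ev w (sg u • x) = ev (fun g κ => w (u * g) κ) x := by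
  have h : (ev w).comp (DistribSMul.toAddMonoidHom (Ch G n) (sg u)) = ev (fun g κ => w (u * g) κ) := by
    refine hom_ext fun g κ => ?_
    rw [AddMonoidHom.comp_apply, DistribSMul.toAddMonoidHom_apply, sg_smul_bs, ev_bs, ev_bs]
  exact DFunLike.congr_fun h x

/-- the additive map `g e_κ ↦ φ(g) t(g, κ)` -/
noncomputable def mp {n m : ℕ} (φ : G → G) (t : G → Fin n → Ch G m) : Ch G n →+ Ch G m :=
  ev fun g κ => sg (φ g) • t g κ

theorem mp_bs {n m : ℕ} (φ : G → G) (t : G → Fin n → Ch G m) (g : G) (κ : Fin n) :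
    mp φ t (bs g κ) = sg (φ g) • t g κ := ev_bs _ _ _

/-- uniformly bornologous families of maps -/
def Born {ι : Type} (φ : ι → G → G) : Prop :=
  ∀ s : G, (Set.range fun p : ι × G => (φ p.1 p.2)⁻¹ * φ p.1 (p.2 * s)).Finite

/-- maps at bounded distance from the identity -/
def Near (φ : G → G) : Prop := (Set.range fun g => g⁻¹ * φ g).Finite

/-- families with finitely many values -/
def FT {ι : Type} {n m : ℕ} (t : ι → G → Fin n → Ch G m) : Prop :=
  (Set.range fun p : ι × G × Fin n => t p.1 p.2.1 p.2.2).Finite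

theorem fin_add {α M : Type*} [Add M] {a b : α → M} (ha : (Set.range a).Finite) (hb : (Set.range b).Finite) :
    (Set.range fun p => a p + b p).Finite :=
  (ha.image2 (· + ·) hb).subset (by
    rintro _ ⟨p, rfl⟩
    exact ⟨_, ⟨p, rfl⟩, _, ⟨p, rfl⟩, rfl⟩)

theorem fin_neg {α M : Type*} [Neg M] {a : α → M} (ha : (Set.range a).Finite) :
    (Set.range fun p => -a p).Finite :=
  (ha.image Neg.neg).subset (by
    rintro _ ⟨p, rfl⟩
    exact ⟨_, ⟨p, rfl⟩, rfl⟩)

theorem fin_smul {α : Type*} {m : ℕ} {u : α → G} {b : α → Ch G m} (ha : (Set.range u).Finite)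
    (hb : (Set.range b).Finite) : (Set.range fun p => sg (u p) • b p).Finite :=
  (ha.image2 (fun u x => sg u • x) hb).subset (by
    rintro _ ⟨p, rfl⟩
    exact ⟨_, ⟨p, rfl⟩, _, ⟨p, rfl⟩, rfl⟩)

/-- finiteness of the local types -/
theorem fin_type {ι : Type} {n m : ℕ} {φ : ι → G → G} {t : ι → G → Fin n → Ch G m} (hφ : Born φ)
    (ht : FT t) (y : Ch G n) :
    (Set.range fun p : ι × G => sg (φ p.1 p.2)⁻¹ • mp (φ p.1) (t p.1) (sg p.2 • y)).Finite := by
  refine ch_induction (fun y => (Set.range fun p : ι × G =>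
    sg (φ p.1 p.2)⁻¹ • mp (φ p.1) (t p.1) (sg p.2 • y)).Finite) ?_ ?_ ?_ ?_ y
  · refine (Set.finite_singleton (0 : Ch G m)).subset ?_
    rintro _ ⟨p, rfl⟩
    simp
  · intro x y hx hy
    have := fin_add hx hy
    refine this.subset ?_
    rintro _ ⟨p, rfl⟩
    refine ⟨p, ?_⟩
    simp only [smul_add, map_add]
  · intro x hx
    refine (fin_neg hx).subset ?_
    rintro _ ⟨p, rfl⟩
    refine ⟨p, ?_⟩
    simp only [smul_neg, map_neg]
  · intro s κ
    have h1 := hφ s
    have h2 : (Set.range fun p : ι × G => t p.1 (p.2 * s) κ).Finite := ht.subset (by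
      rintro _ ⟨p, rfl⟩
      exact ⟨(p.1, p.2 * s, κ), rfl⟩)
    refine (fin_smul h1 h2).subset ?_
    rintro _ ⟨p, rfl⟩
    refine ⟨p, ?_⟩
    show sg ((φ p.1 p.2)⁻¹ * φ p.1 (p.2 * s)) • t p.1 (p.2 * s) κ =
      sg (φ p.1 p.2)⁻¹ • mp (φ p.1) (t p.1) (sg p.2 • bs s κ)
    rw [sg_smul_bs, mp_bs, smul_smul, sg_mul]

/-- the boundary map -/
noncomputable def dd (X : FinRes G) (j : ℕ) : Ch G (X.n (j + 1)) →+ Ch G (X.n j) :=
  ((X.d j).vecMulLinear).toAddMonoidHom

theorem dd_apply (X : FinRes G) (j : ℕ) (x : Ch G (X.n (j + 1))) : dd X j x = x ᵥ* X.d j := rfl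

theorem dd_smul (X : FinRes G) (j : ℕ) (a : MonoidAlgebra ℤ G) (x : Ch G (X.n (j + 1))) :
    dd X j (a • x) = a • dd X j x := ((X.d j).vecMulLinear).map_smul a x

theorem dd_dd (X : FinRes G) (j : ℕ) (x : Ch G (X.n (j + 1 + 1))) : dd X j (dd X (j + 1) x) = 0 :=
  (X.exact_succ j _).2 ⟨x, rfl⟩

/-- a choice of preimages under the boundary map -/
noncomputable def fill (X : FinRes G) (j : ℕ) (c : Ch G (X.n j)) : Ch G (X.n (j + 1)) :=
  open Classical in if h : ∃ y, dd X j y = c then h.choose else 0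

theorem dd_fill (X : FinRes G) (j : ℕ) {c : Ch G (X.n j)} (h : ∃ y, dd X j y = c) :
    dd X j (fill X j c) = c := by
  rw [fill, dif_pos h]
  exact h.choose_spec

/-- the data in one degree: `f = mp φ t`, `K = mp id q`, and `f ∂y - ∂y = ∂K∂y` -/
structure Lvl (X : FinRes G) {ι : Type} (φ : ι → G → G) (j : ℕ)
    (t : ι → G → Fin (X.n j) → Ch G (X.n j)) (q : ι → G → Fin (X.n j) → Ch G (X.n (j + 1))) : Prop where
  ft : FT t
  fq : ∀ k, (Set.range fun p : G × Fin (X.n j) => q k p.1 p.2).Finite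
  rel : ∀ k y, mp (φ k) (t k) (dd X j y) - dd X j y = dd X j (mp id (q k) (dd X j y))

theorem born_id : Born (fun _ : Unit => (id : G → G)) := by
  intro s
  refine (Set.finite_singleton s).subset ?_
  rintro _ ⟨p, rfl⟩
  simp

/-- finiteness of the local types of the homotopy -/
theorem fin_type_id {n m : ℕ} {q : G → Fin n → Ch G m}
    (hq : (Set.range fun p : G × Fin n => q p.1 p.2).Finite) (y : Ch G n) :
    (Set.range fun g : G => sg g⁻¹ • mp id q (sg g • y)).Finite := by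
  have h : FT (fun _ : Unit => q) := hq.subset (by
    rintro _ ⟨p, rfl⟩
    exact ⟨(p.2.1, p.2.2), rfl⟩)
  refine (fin_type born_id h y).subset ?_
  rintro _ ⟨g, rfl⟩
  exact ⟨((), g), rfl⟩

theorem fin_union {α M : Type*} {n : ℕ} {F : α → Fin n → M} (h : ∀ κ, (Set.range fun p => F p κ).Finite) :
    (Set.range fun p : α × Fin n => F p.1 p.2).Finite := by
  refine (Set.finite_iUnion h).subset ?_
  rintro _ ⟨p, rfl⟩
  exact Set.mem_iUnion.2 ⟨p.2, ⟨p.1, rfl⟩⟩

/-- the base -/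
theorem base (X : FinRes G) {ι : Type} (φ : ι → G → G) (hN : ∀ k, Near (φ k)) :
    ∃ t q, Lvl X φ 0 t q ∧ ∀ k x, mp (φ k) (t k) x - x = dd X 0 (mp id (q k) x) := by
  let t : ι → G → Fin (X.n 0) → Ch G (X.n 0) := fun _ _ κ => bs 1 κ
  let z : ι → G → Fin (X.n 0) → Ch G (X.n 0) := fun k g κ => bs (g⁻¹ * φ k g) κ - bs 1 κ
  let q : ι → G → Fin (X.n 0) → Ch G (X.n 1) := fun k g κ => fill X 0 (z k g κ)
  have hz : ∀ k g κ, dd X 0 (q k g κ) = z k g κ := by
    intro k g κ
    refine dd_fill X 0 ((X.exact_zero _).1 ?_)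
    have h1 : ∀ (u : G) (j : Fin (X.n 0)), augm G ((bs u κ : Ch G (X.n 0)) j) =
        augm G ((bs 1 κ : Ch G (X.n 0)) j) := by
      intro u j
      by_cases hj : j = κ
      · subst hj
        rw [bs, bs, Pi.single_eq_same, Pi.single_eq_same]
        simp [augm, sg]
      · rw [bs, bs, Pi.single_eq_of_ne hj, Pi.single_eq_of_ne hj]
    refine Finset.sum_eq_zero fun j _ => ?_
    show augm G ((bs (g⁻¹ * φ k g) κ : Ch G (X.n 0)) j - (bs 1 κ : Ch G (X.n 0)) j) * _ = 0
    rw [map_sub, h1, sub_self, zero_mul]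
  have hrel : ∀ k x, mp (φ k) (t k) x - x = dd X 0 (mp id (q k) x) := by
    intro k x
    have h : mp (φ k) (t k) - AddMonoidHom.id _ = (dd X 0).comp (mp id (q k)) := by
      refine hom_ext fun g κ => ?_
      rw [AddMonoidHom.sub_apply, AddMonoidHom.comp_apply, mp_bs, mp_bs, AddMonoidHom.id_apply, dd_smul, hz]
      show sg (φ k g) • bs 1 κ - bs g κ = sg g • (bs (g⁻¹ * φ k g) κ - bs 1 κ)
      rw [smul_sub, sg_smul_bs, sg_smul_bs, sg_smul_bs]
      simp
    exact DFunLike.congr_fun h x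
  refine ⟨t, q, ⟨?_, ?_, fun k y => hrel k _⟩, hrel⟩
  · refine (Set.finite_range fun κ : Fin (X.n 0) => (bs 1 κ : Ch G (X.n 0))).subset ?_
    rintro _ ⟨p, rfl⟩
    exact ⟨p.2.2, rfl⟩
  · intro k
    have h1 : (Set.range fun p : G × Fin (X.n 0) => z k p.1 p.2).Finite := by
      refine fin_union fun κ => ?_
      have h2 := fin_smul (m := X.n 0) (hN k)
        (b := fun _ : G => (bs 1 κ : Ch G (X.n 0))) (Set.finite_range_const)
      refine (fin_add h2 (Set.finite_range_const (c := -(bs 1 κ : Ch G (X.n 0))))).subset ?_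
      rintro _ ⟨g, rfl⟩
      refine ⟨g, ?_⟩
      show sg (g⁻¹ * φ k g) • bs 1 κ + -bs 1 κ = bs (g⁻¹ * φ k g) κ - bs 1 κ
      rw [sg_smul_bs, mul_one, sub_eq_add_neg]
    refine (h1.image (fill X 0)).subset ?_
    rintro _ ⟨p, rfl⟩
    exact ⟨_, ⟨p, rfl⟩, rfl⟩

/-- the step -/
theorem step (X : FinRes G) {ι : Type} (φ : ι → G → G) (hB : Born φ) (hN : ∀ k, Near (φ k)) (j : ℕ)
    {t : ι → G → Fin (X.n j) → Ch G (X.n j)} {q : ι → G → Fin (X.n j) → Ch G (X.n (j + 1))}
    (h : Lvl X φ j t q) :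
    ∃ t' q', Lvl X φ (j + 1) t' q' ∧
      ∀ k x, mp (φ k) (t' k) x - x = dd X (j + 1) (mp id (q' k) x) + mp id (q k) (dd X j x) := by
  let c : ι → G → Fin (X.n (j + 1)) → Ch G (X.n j) := fun k g κ =>
    sg (φ k g)⁻¹ • mp (φ k) (t k) (sg g • dd X j (bs 1 κ))
  let t' : ι → G → Fin (X.n (j + 1)) → Ch G (X.n (j + 1)) := fun k g κ => fill X j (c k g κ)
  have hd : ∀ (g : G) (κ : Fin (X.n (j + 1))), sg g • dd X j (bs 1 κ) = dd X j (bs g κ) := by
    intro g κ
    rw [bs_eq g κ, dd_smul]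
  have hc : ∀ k g κ, dd X j (t' k g κ) = c k g κ := by
    intro k g κ
    refine dd_fill X j ⟨sg (φ k g)⁻¹ • (bs g κ + mp id (q k) (dd X j (bs g κ))), ?_⟩
    rw [dd_smul, map_add, ← h.rel k]
    show _ = sg (φ k g)⁻¹ • mp (φ k) (t k) (sg g • dd X j (bs 1 κ))
    rw [hd]
    congr 1
    abel
  have hcomm : ∀ k x, dd X j (mp (φ k) (t' k) x) = mp (φ k) (t k) (dd X j x) := by
    intro k x
    have h1 : (dd X j).comp (mp (φ k) (t' k)) = (mp (φ k) (t k)).comp (dd X j) := by
      refine hom_ext fun g κ => ?_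
      rw [AddMonoidHom.comp_apply, AddMonoidHom.comp_apply, mp_bs, dd_smul, hc]
      show sg (φ k g) • (sg (φ k g)⁻¹ • mp (φ k) (t k) (sg g • dd X j (bs 1 κ))) = _
      rw [hd, smul_smul, ← sg_mul, mul_inv_cancel, sg_one, one_smul]
    exact DFunLike.congr_fun h1 x
  have hft : FT t' := by
    have h1 : (Set.range fun p : (ι × G) × Fin (X.n (j + 1)) => c p.1.1 p.1.2 p.2).Finite :=
      fin_union (F := fun p : ι × G => c p.1 p.2) fun κ => fin_type hB h.ft _
    refine (h1.image (fill X j)).subset ?_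
    rintro _ ⟨p, rfl⟩
    exact ⟨_, ⟨((p.1, p.2.1), p.2.2), rfl⟩, rfl⟩
  let z : ι → G → Fin (X.n (j + 1)) → Ch G (X.n (j + 1)) := fun k g κ =>
    sg g⁻¹ • (mp (φ k) (t' k) (bs g κ) - bs g κ - mp id (q k) (dd X j (bs g κ)))
  let q' : ι → G → Fin (X.n (j + 1)) → Ch G (X.n (j + 1 + 1)) := fun k g κ => fill X (j + 1) (z k g κ)
  have hz : ∀ k g κ, dd X (j + 1) (q' k g κ) = z k g κ := by
    intro k g κ
    refine dd_fill X (j + 1) ((X.exact_succ j _).1 ?_)
    show dd X j (z k g κ) = 0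
    show dd X j (sg g⁻¹ • (mp (φ k) (t' k) (bs g κ) - bs g κ - mp id (q k) (dd X j (bs g κ)))) = 0
    rw [dd_smul, map_sub, map_sub, hcomm, ← h.rel k, sub_self, smul_zero]
  have hrel : ∀ k x, mp (φ k) (t' k) x - x = dd X (j + 1) (mp id (q' k) x) + mp id (q k) (dd X j x) := by
    intro k x
    have h1 : mp (φ k) (t' k) - AddMonoidHom.id _ =
        (dd X (j + 1)).comp (mp id (q' k)) + (mp id (q k)).comp (dd X j) := by
      refine hom_ext fun g κ => ?_
      rw [AddMonoidHom.sub_apply, AddMonoidHom.add_apply, AddMonoidHom.comp_apply, AddMonoidHom.comp_apply,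
        AddMonoidHom.id_apply, mp_bs id, dd_smul, hz]
      show _ = sg g • (sg g⁻¹ • (mp (φ k) (t' k) (bs g κ) - bs g κ - mp id (q k) (dd X j (bs g κ)))) + _
      rw [smul_smul, ← sg_mul, mul_inv_cancel, sg_one, one_smul]
      abel
    exact DFunLike.congr_fun h1 x
  refine ⟨t', q', ⟨hft, ?_, ?_⟩, hrel⟩
  · intro k
    have h1 : (Set.range fun p : G × Fin (X.n (j + 1)) => z k p.1 p.2).Finite := by
      refine fin_union fun κ => ?_
      have a1 : (Set.range fun g : G => sg (g⁻¹ * φ k g) • t' k g κ).Finite :=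
        fin_smul (hN k) (hft.subset (by
          rintro _ ⟨g, rfl⟩
          exact ⟨(k, g, κ), rfl⟩))
      have a2 : (Set.range fun _ : G => -(bs 1 κ : Ch G (X.n (j + 1)))).Finite := Set.finite_range_const
      have a3 := fin_neg (fin_type_id (h.fq k) (dd X j (bs 1 κ)))
      refine (fin_add (fin_add a1 a2) a3).subset ?_
      rintro _ ⟨g, rfl⟩
      refine ⟨g, ?_⟩
      show sg (g⁻¹ * φ k g) • t' k g κ + -bs 1 κ + -(sg g⁻¹ • mp id (q k) (sg g • dd X j (bs 1 κ))) =
        sg g⁻¹ • (mp (φ k) (t' k) (bs g κ) - bs g κ - mp id (q k) (dd X j (bs g κ)))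
      rw [hd, mp_bs, smul_sub, smul_sub, smul_smul, ← sg_mul, sg_smul_bs, inv_mul_cancel]
      abel
    refine (h1.image (fill X (j + 1))).subset ?_
    rintro _ ⟨p, rfl⟩
    exact ⟨_, ⟨p, rfl⟩, rfl⟩
  · intro k y
    rw [hrel, dd_dd, map_zero, add_zero]

/-- the data exist in all degrees -/
theorem exists_lvl (X : FinRes G) {ι : Type} (φ : ι → G → G) (hB : Born φ) (hN : ∀ k, Near (φ k)) (j : ℕ) :
    ∃ t q, Lvl X φ j t q := by
  induction j with
  | zero =>
    obtain ⟨t, q, h, -⟩ := base X φ hN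
    exact ⟨t, q, h⟩
  | succ j ih =>
    obtain ⟨t, q, h⟩ := ih
    obtain ⟨t', q', h', -⟩ := step X φ hB hN j h
    exact ⟨t', q', h'⟩

end Pool.Agent.R779.CT
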