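import Pool.Agent.R779.CT.Alg

/-!
# Square summable chains and maps of finite type
-/

set_option autoImplicit false

namespace Pool.Agent.R779.CT

open Filter Topology
open scoped ENNReal
open Pool.Agent.H919R4.ZS (FinRes)

variable {G : Type} [Group G]

/-- the square -/
noncomputable def sq (a : ℝ) : ℝ≥0∞ := ENNReal.ofReal (a ^ 2)

theorem sq_zero' : sq 0 = 0 := by simp [sq]

theorem sq_neg (a : ℝ) : sq (-a) = sq a := by simp [sq]

theorem sq_add (a b : ℝ) : sq (a + b) ≤ 2 * sq a + 2 * sq b := by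
  unfold sq
  rw [show (2 : ℝ≥0∞) = ENNReal.ofReal 2 by simp, ← ENNReal.ofReal_mul (by norm_num),
    ← ENNReal.ofReal_mul (by norm_num), ← ENNReal.ofReal_add (by positivity) (by positivity)]
  exact ENNReal.ofReal_le_ofReal (by nlinarith [sq_nonneg (a - b)])

/-- the square of the norm -/
noncomputable def nm {n : ℕ} (h : G → Fin n → ℝ) : ℝ≥0∞ := ∑ κ, ∑' g, sq (h g κ)

omit [Group G] in
theorem fibre (A : G → ℝ≥0∞) (φ : G → G) (m : ℕ) (hm : ∀ u, {g | φ g = u}.encard ≤ m) :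
    ∑' g, A (φ g) ≤ m * ∑' u, A u := by
  rw [← (Equiv.sigmaFiberEquiv φ).tsum_eq, ENNReal.tsum_sigma', ← ENNReal.tsum_mul_left]
  refine ENNReal.tsum_le_tsum fun u => ?_
  have h1 : ∀ x : {g // φ g = u}, A (φ ((Equiv.sigmaFiberEquiv φ) ⟨u, x⟩)) = A u := by
    intro x
    have : φ ((Equiv.sigmaFiberEquiv φ) ⟨u, x⟩) = u := x.2
    rw [this]
  rw [tsum_congr h1, ENNReal.tsum_const]
  refine mul_le_mul_left ?_ _
  have h2 := hm u
  have h3 : ENat.card {g // φ g = u} ≤ (m : ℕ∞) := h2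
  exact_mod_cast h3

theorem bdQ {n : ℕ} (τ : Ch G n) :
    ∃ C : ℝ≥0∞, C ≠ ⊤ ∧ ∀ h : G → Fin n → ℝ, ∑' u : G, sq (ev h (sg u • τ)) ≤ C * nm h := by
  refine ch_induction (fun τ => ∃ C : ℝ≥0∞, C ≠ ⊤ ∧ ∀ h : G → Fin n → ℝ,
    ∑' u : G, sq (ev h (sg u • τ)) ≤ C * nm h) ?_ ?_ ?_ ?_ τ
  · refine ⟨0, ENNReal.zero_ne_top, fun h => ?_⟩
    simp [sq_zero']
  · rintro x y ⟨C, hC, hx⟩ ⟨D, hD, hy⟩
    refine ⟨2 * C + 2 * D, by finiteness, fun h => ?_⟩
    calc ∑' u : G, sq (ev h (sg u • (x + y)))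
        ≤ ∑' u : G, (2 * sq (ev h (sg u • x)) + 2 * sq (ev h (sg u • y))) := by
          refine ENNReal.tsum_le_tsum fun u => ?_
          rw [smul_add, map_add]
          exact sq_add _ _
      _ = 2 * ∑' u : G, sq (ev h (sg u • x)) + 2 * ∑' u : G, sq (ev h (sg u • y)) := by
          rw [ENNReal.tsum_add, ENNReal.tsum_mul_left, ENNReal.tsum_mul_left]
      _ ≤ 2 * (C * nm h) + 2 * (D * nm h) := by gcongr; exacts [hx h, hy h]
      _ = (2 * C + 2 * D) * nm h := by ring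
  · rintro x ⟨C, hC, hx⟩
    refine ⟨C, hC, fun h => ?_⟩
    refine le_trans (le_of_eq ?_) (hx h)
    refine tsum_congr fun u => ?_
    rw [smul_neg, map_neg, sq_neg]
  · intro s κ
    refine ⟨1, ENNReal.one_ne_top, fun h => ?_⟩
    rw [one_mul]
    have h1 : ∀ u, sq (ev h (sg u • bs s κ)) = sq (h (u * s) κ) := by
      intro u
      rw [sg_smul_bs, ev_bs]
    have h2 : ∑' b : G, sq (h (b * s) κ) = ∑' g, sq (h g κ) := (Equiv.mulRight s).tsum_eq (fun g => sq (h g κ))
    rw [tsum_congr h1, h2]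
    exact Finset.single_le_sum (f := fun κ => ∑' g, sq (h g κ)) (fun _ _ => by simp) (Finset.mem_univ κ)

theorem bdT {n : ℕ} (T : Set (Ch G n)) (hT : T.Finite) (m : ℕ) :
    ∃ C : ℝ≥0∞, C ≠ ⊤ ∧ ∀ φ : G → G, (∀ u, {g | φ g = u}.encard ≤ m) → ∀ t : G → Ch G n, (∀ g, t g ∈ T) →
      ∀ h : G → Fin n → ℝ, ∑' g, sq (ev h (sg (φ g) • t g)) ≤ C * nm h := by
  classical
  choose C hC hq using fun τ : Ch G n => bdQ τ
  refine ⟨∑ τ ∈ hT.toFinset, m * C τ, ?_, ?_⟩
  · exact ENNReal.sum_ne_top.2 fun τ _ => ENNReal.mul_ne_top (ENNReal.natCast_ne_top m) (hC τ)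
  · intro φ hm t ht h
    calc ∑' g, sq (ev h (sg (φ g) • t g))
        ≤ ∑' g, ∑ τ ∈ hT.toFinset, sq (ev h (sg (φ g) • τ)) := by
          refine ENNReal.tsum_le_tsum fun g => ?_
          exact Finset.single_le_sum (f := fun τ => sq (ev h (sg (φ g) • τ))) (fun _ _ => by simp)
            (hT.mem_toFinset.2 (ht g))
      _ = ∑ τ ∈ hT.toFinset, ∑' g, sq (ev h (sg (φ g) • τ)) := by
          exact Summable.tsum_finsetSum fun _ _ => ENNReal.summable
      _ ≤ ∑ τ ∈ hT.toFinset, m * (C τ * nm h) := by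
          refine Finset.sum_le_sum fun τ _ => ?_
          refine (fibre (fun u => sq (ev h (sg u • τ))) φ m hm).trans ?_
          exact mul_le_mul_right (hq τ h) _
      _ = (∑ τ ∈ hT.toFinset, m * C τ) * nm h := by
          rw [Finset.sum_mul]
          refine Finset.sum_congr rfl fun τ _ => ?_
          rw [mul_assoc]

theorem summable_of_sq {α : Type*} {w : α → ℝ} (h : ∑' g, sq (w g) ≠ ⊤) : Summable fun g => w g ^ 2 := by
  have h1 := ENNReal.summable_toReal h
  refine h1.congr fun g => ?_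
  exact ENNReal.toReal_ofReal (sq_nonneg _)

theorem tsum_sq {α : Type*} {w : α → ℝ} (h : Summable fun g => w g ^ 2) :
    ∑' g, sq (w g) = ENNReal.ofReal (∑' g, w g ^ 2) :=
  (ENNReal.ofReal_tsum_of_nonneg (fun _ => sq_nonneg _) h).symm

omit [Group G] in
theorem nm_ne_top {n : ℕ} {h : G → Fin n → ℝ} (hs : ∀ κ, Summable fun g => h g κ ^ 2) : nm h ≠ ⊤ := by
  refine ENNReal.sum_ne_top.2 fun κ _ => ?_
  rw [tsum_sq (hs κ)]
  exact ENNReal.ofReal_ne_top

theorem summable_mul {α : Type*} {a b : α → ℝ} (ha : Summable fun g => a g ^ 2) (hb : Summable fun g => b g ^ 2) :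
    Summable fun g => a g * b g := by
  refine Summable.of_norm_bounded (ha.add hb) fun g => ?_
  rw [Real.norm_eq_abs, abs_le]
  constructor <;> nlinarith [sq_nonneg (a g - b g), sq_nonneg (a g + b g), sq_nonneg (a g), sq_nonneg (b g)]

/-- bounded sequences of square summable functions which tend to `0` pointwise tend to `0` weakly -/
theorem weak {α : Type*} {a : α → ℝ} (ha : Summable fun g => a g ^ 2) {w : ℕ → α → ℝ} {B : ℝ}
    (hw : ∀ k, Summable fun g => w k g ^ 2) (hB : ∀ k, ∑' g, w k g ^ 2 ≤ B)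
    (hp : ∀ g, Tendsto (fun k => w k g) atTop (𝓝 0)) :
    Tendsto (fun k => ∑' g, a g * w k g) atTop (𝓝 0) := by
  have hB0 : 0 ≤ B := (tsum_nonneg fun g => sq_nonneg _).trans (hB 0)
  rw [Metric.tendsto_atTop]
  intro ε hε
  set η : ℝ := ε / (3 * (B + 1)) with hη
  have hη0 : 0 < η := by positivity
  have hηB : η * B < ε / 3 := by
    rw [hη, div_mul_eq_mul_div, div_lt_div_iff₀ (by positivity) (by norm_num)]
    nlinarith
  obtain ⟨A, hA⟩ : ∃ A : Finset α, ∑' g : {x // x ∉ A}, a g ^ 2 < η * (ε / 3) := by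
    have h1 := tendsto_tsum_compl_atTop_zero (fun g => a g ^ 2)
    have h2 := (tendsto_order.1 h1).2 (η * (ε / 3)) (by positivity)
    exact h2.exists
  have h3 : Tendsto (fun k => ∑ g ∈ A, a g * w k g) atTop (𝓝 0) := by
    have := tendsto_finsetSum A (fun g _ => (hp g).const_mul (a g))
    simpa using this
  obtain ⟨K, hK⟩ := (Metric.tendsto_atTop.1 h3) (ε / 3) (by positivity)
  refine ⟨K, fun k hk => ?_⟩
  have h4 := hK k hk
  rw [dist_zero_right, Real.norm_eq_abs] at h4 ⊢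
  have hsm := summable_mul ha (hw k)
  have h5 := hsm.sum_add_tsum_subtype_compl A
  have ha' : Summable fun g : {x // x ∉ A} => a g ^ 2 := ha.subtype _
  have hw' : Summable fun g : {x // x ∉ A} => w k g ^ 2 := (hw k).subtype _
  have hbd : Summable fun g : {x // x ∉ A} => a g ^ 2 / η + η * w k g ^ 2 :=
    (ha'.div_const η).add (hw'.mul_left η)
  have h6 : ‖∑' g : {x // x ∉ A}, a g * w k g‖ ≤ ∑' g : {x // x ∉ A}, (a g ^ 2 / η + η * w k g ^ 2) := by
    refine tsum_of_norm_bounded hbd.hasSum fun g => ?_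
    rw [Real.norm_eq_abs, abs_mul]
    have e1 : 0 ≤ (|a g| - η * |w k g|) ^ 2 / η := by positivity
    have e2 : (|a g| - η * |w k g|) ^ 2 / η = a g ^ 2 / η - 2 * (|a g| * |w k g|) + η * w k g ^ 2 := by
      field_simp
      ring_nf
      rw [sq_abs, sq_abs]
      ring
    have e3 : 0 ≤ |a g| * |w k g| := by positivity
    linarith
  have h7 : ∑' g : {x // x ∉ A}, (a g ^ 2 / η + η * w k g ^ 2) < ε / 3 + ε / 3 := by
    rw [(ha'.div_const η).tsum_add (hw'.mul_left η), tsum_div_const, tsum_mul_left]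
    have e1 : (∑' g : {x // x ∉ A}, a g ^ 2) / η < ε / 3 := by
      rw [div_lt_iff₀ hη0]
      linarith
    have e2 : ∑' g : {x // x ∉ A}, w k g ^ 2 ≤ B := by
      refine le_trans ?_ (hB k)
      exact Summable.tsum_subtype_le (fun g => w k g ^ 2) _ (fun _ => sq_nonneg _) (hw k)
    have e3 : η * ∑' g : {x // x ∉ A}, w k g ^ 2 ≤ η * B := mul_le_mul_of_nonneg_left e2 hη0.le
    linarith
  rw [← h5]
  have h8 := abs_add_le (∑ g ∈ A, a g * w k g) (∑' g : {x // x ∉ A}, a g * w k g)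
  rw [Real.norm_eq_abs] at h6
  linarith

/-- evaluation of the adjoint -/
noncomputable def co {n : ℕ} (a : G → ℝ) (u : G) (l : Fin n) : Ch G n →+ ℝ :=
  ev fun s l' => if l' = l then a (u * s⁻¹) else 0

theorem co_apply {n : ℕ} (a : G → ℝ) (u : G) (l : Fin n) (x : Ch G n) :
    co a u l x = (x l).coeff.sum fun s c => (c : ℝ) * a (u * s⁻¹) := by
  rw [co, ev_apply, Finset.sum_eq_single l]
  · refine Finset.sum_congr rfl fun s _ => ?_
    simp
  · intro l' _ h
    simp [h]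
  · intro h
    exact absurd (Finset.mem_univ l) h

theorem co_bs {n : ℕ} (a : G → ℝ) (u : G) (l : Fin n) (s : G) (κ : Fin n) :
    co a u l (bs s κ) = if κ = l then a (u * s⁻¹) else 0 := ev_bs _ _ _

theorem hs_congr {α : Type*} {f g : α → ℝ} {a : ℝ} (h : HasSum f a) (e : ∀ x, g x = f x) : HasSum g a := by
  rwa [funext e]

/-- interchange of the sums -/
theorem pairing {n : ℕ} {a : G → ℝ} (ha : Summable fun g => a g ^ 2) {v : G → Fin n → ℝ}
    (hv : ∀ l, Summable fun g => v g l ^ 2) (x : Ch G n) :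
    ∃ (S : ℝ) (F : Fin n → ℝ), HasSum (fun g => a g * ev v (sg g • x)) S ∧
      (∀ l, HasSum (fun u => v u l * co a u l x) (F l)) ∧ ∑ l, F l = S := by
  refine ch_induction (fun x => ∃ (S : ℝ) (F : Fin n → ℝ), HasSum (fun g => a g * ev v (sg g • x)) S ∧
      (∀ l, HasSum (fun u => v u l * co a u l x) (F l)) ∧ ∑ l, F l = S) ?_ ?_ ?_ ?_ x
  · refine ⟨0, fun _ => 0, ?_, fun l => ?_, by simp⟩
    · simp
    · simp
  · rintro x y ⟨S, F, h1, h2, h3⟩ ⟨S', F', h1', h2', h3'⟩
    refine ⟨S + S', fun l => F l + F' l, ?_, fun l => ?_, ?_⟩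
    · refine hs_congr ((h1.add h1')) fun g => ?_
      rw [smul_add, map_add, mul_add]
    · refine hs_congr (((h2 l).add (h2' l))) fun g => ?_
      rw [map_add, mul_add]
    · rw [Finset.sum_add_distrib, h3, h3']
  · rintro x ⟨S, F, h1, h2, h3⟩
    refine ⟨-S, fun l => -F l, ?_, fun l => ?_, ?_⟩
    · refine hs_congr (h1.neg) fun g => ?_
      rw [smul_neg, map_neg, mul_neg]
    · refine hs_congr ((h2 l).neg) fun g => ?_
      rw [map_neg, mul_neg]
    · rw [Finset.sum_neg_distrib, h3]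
  · intro s κ
    have hsm : Summable fun g => a g * v (g * s) κ :=
      summable_mul ha (((Equiv.mulRight s).summable_iff (f := fun g => v g κ ^ 2)).2 (hv κ))
    refine ⟨∑' g, a g * v (g * s) κ, fun l => if κ = l then ∑' g, a g * v (g * s) κ else 0, ?_, fun l => ?_, ?_⟩
    · refine hs_congr (hsm.hasSum) fun g => ?_
      rw [sg_smul_bs, ev_bs]
    · by_cases h : κ = l
      · subst h
        beta_reduce
        rw [if_pos rfl, ← (Equiv.mulRight s).hasSum_iff]
        refine hs_congr (hsm.hasSum) fun g => ?_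
        show v (g * s) κ * co a (g * s) κ (bs s κ) = _
        rw [co_bs, if_pos rfl, mul_assoc, mul_inv_cancel, mul_one, mul_comm]
      · beta_reduce
        rw [if_neg h]
        refine hs_congr (hasSum_zero) fun g => ?_
        rw [co_bs, if_neg h, mul_zero]
    · simp

end Pool.Agent.R779.CT
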