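import Pool.Agent.H919R4.ZS.Defs

/-!
# Vanishing of `ℓ²`-Betti numbers, and coarse translations

`X : FinRes G` (`Pool.Agent.H919R4.ZS.Defs`) is a finite free resolution of the trivial
`ℤ[G]`-module `ℤ` with bases, for instance the cellular chain complex of the universal cover of a finite
aspherical complex `M` with fundamental group `G`. The cells of dimension `i` of the universal cover are
the pairs `(g, κ)`, `g ∈ G`, `κ : Fin (X.n i)`; the cell `(g, κ)` is the basis element `g e_κ`, and
`∂(g e_κ) = ∑ l, g (X.d i κ l) e_l`.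
-/

set_option autoImplicit false

namespace Pool.Agent.R779.CT

open Filter
open Pool.Agent.H919R4.ZS (FinRes)

variable {G : Type} [Group G]

/-- The value of the coboundary of the `i`-cochain `h` on the cell `(g, κ)` of dimension `i + 1`, that is,
the value of `h` on `∂(g e_κ) = ∑ l, ∑ s, c_s • (g s) e_l`, where `c_s` is the coefficient of `s` in the
entry `X.d i κ l`. -/
noncomputable def cobdry (X : FinRes G) (i : ℕ) (h : G → Fin (X.n i) → ℝ) (g : G)
    (κ : Fin (X.n (i + 1))) : ℝ :=
  ∑ l, (X.d i κ l).coeff.sum fun s c => (c : ℝ) * h (g * s) l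

/-- The coefficient of the cell `(u, l)` of dimension `i` in the boundary of the (infinite)
`(i + 1)`-chain `h = ∑ h(g, κ) g e_κ`. -/
noncomputable def bdry (X : FinRes G) (i : ℕ) (h : G → Fin (X.n (i + 1)) → ℝ) (u : G)
    (l : Fin (X.n i)) : ℝ :=
  ∑ κ, (X.d i κ l).coeff.sum fun s c => (c : ℝ) * h (u * s⁻¹) κ

/-- The cycles among the (infinite) `i`-chains. -/
def IsCycle (X : FinRes G) : (i : ℕ) → (G → Fin (X.n i) → ℝ) → Prop
  | 0, _ => True
  | i + 1, h => ∀ u l, bdry X i h u l = 0

/-- There is no nonzero square summable harmonic `i`-chain, that is, the reduced `ℓ²`-homology of the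
universal cover vanishes in degree `i`; equivalently, the `i`-th `L²`-Betti number is `0`. -/
def L2Zero (X : FinRes G) (i : ℕ) : Prop :=
  ∀ h : G → Fin (X.n i) → ℝ, (∀ κ, Summable fun g => h g κ ^ 2) → IsCycle X i h →
    (∀ g κ, cobdry X i h g κ = 0) → h = 0

/-- Coarse translations: a sequence of self-maps `φ k` of the group `G` with the following properties. -/
structure CoarseTranslations (φ : ℕ → G → G) : Prop where
  /-- the maps are uniformly Lipschitz (with respect to word metrics): for every `s ∈ G` the elements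
  `φ_k(g)⁻¹ φ_k(gs)`, `k ∈ ℕ`, `g ∈ G`, form a finite set -/
  lipschitz : ∀ s : G, {u | ∃ k g, u = (φ k g)⁻¹ * φ k (g * s)}.Finite
  /-- the maps are uniformly finite-to-one -/
  fibres : ∃ m : ℕ, ∀ k u, {g | φ k g = u}.encard ≤ m
  /-- each of the maps is at finite distance from the identity (not uniformly in `k`) -/
  near : ∀ k, {u | ∃ g, u = g⁻¹ * φ k g}.Finite
  /-- `φ_k(1)` tends to infinity -/
  disperse : Tendsto (fun k => φ k 1) atTop cofinite

end Pool.Agent.R779.CT
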