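import Pool.Agent.R779.CT.Main
import Pool.Agent.TH57.Thr.Ati2
import Pool.Agent.TH38.ZT.Trace

/-!
# The Euler characteristic when all `ℓ²`-Betti numbers vanish
-/

set_option autoImplicit false

namespace Pool.Agent.R779.CT

open scoped InnerProductSpace InnerProduct ENNReal Matrix
open Pool.Agent.W649.ZL TH57.Thr.Ati
open Pool.Agent.H919R4.ZS (FinRes)
open Pool.Agent.TH38.ZT (euler)

variable {G : Type} [Group G]

/-- the boundary operator on square summable chains -/
noncomputable def TT (X : FinRes G) (i : ℕ) : EE G (Fin (X.n (i + 1))) →L[ℂ] EE G (Fin (X.n i)) :=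
  Rop (toC (X.d i))

theorem Rop_dl' {K L : Type} [Fintype K] [Fintype L] [DecidableEq K] [DecidableEq L]
    (A : Matrix K L (MonoidAlgebra ℂ G)) (v : G) (κ : K) :
    Rop A (dl (v, κ)) = ∑ j, ∑ h ∈ (A κ j).coeff.support, (A κ j).coeff h • (dl (h⁻¹ * v, j) : EE G L) := by
  ext ⟨u, j'⟩
  rw [Rop_apply, sum_apply_EE, Finset.sum_eq_single κ, Finset.sum_eq_single j']
  · rw [sum_apply_EE]
    unfold cv Finsupp.sum
    refine Finset.sum_congr rfl fun h _ => ?_
    show (A κ j').coeff h * (dl (v, κ) : EE G K) (h * u, κ) = (A κ j').coeff h * (dl (h⁻¹ * v, j') : EE G L) (u, j')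
    congr 1
    by_cases e : h * u = v
    · have e2 : h⁻¹ * v = u := by rw [← e]; group
      rw [e, e2, dl_apply_self, dl_apply_self]
    · rw [dl_apply_ne, dl_apply_ne]
      · intro h'
        apply e
        rw [Prod.mk.injEq] at h'
        rw [h'.1]
        group
      · intro h'
        rw [Prod.mk.injEq] at h'
        exact e h'.1
  · intro j _ hj
    rw [sum_apply_EE]
    refine Finset.sum_eq_zero fun h _ => ?_
    show (A κ j).coeff h * (dl (h⁻¹ * v, j) : EE G L) (u, j') = 0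
    rw [dl_apply_ne, mul_zero]
    intro h'
    rw [Prod.mk.injEq] at h'
    exact hj h'.2.symm
  · intro h
    exact absurd (Finset.mem_univ _) h
  · intro k _ hk
    unfold cv Finsupp.sum
    refine Finset.sum_eq_zero fun h _ => ?_
    show (A k j').coeff h * (dl (v, κ) : EE G K) (h * u, k) = 0
    rw [dl_apply_ne, mul_zero]
    intro h'
    rw [Prod.mk.injEq] at h'
    exact hk h'.2
  · intro h
    exact absurd (Finset.mem_univ _) h

theorem adj_apply {K L : Type} [Fintype K] [Fintype L] [DecidableEq K] [DecidableEq L]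
    (A : Matrix K L (MonoidAlgebra ℂ G)) (F : EE G L) (v : G) (κ : K) :
    ContinuousLinearMap.adjoint (Rop A) F (v, κ) =
      ∑ j, ∑ h ∈ (A κ j).coeff.support, (starRingEnd ℂ) ((A κ j).coeff h) * F (h⁻¹ * v, j) := by
  rw [← inner_dl_left (v, κ), ContinuousLinearMap.adjoint_inner_right, Rop_dl', sum_inner]
  refine Finset.sum_congr rfl fun j _ => ?_
  rw [sum_inner]
  refine Finset.sum_congr rfl fun h _ => ?_
  rw [inner_smul_left, inner_dl_left]

theorem sum_toC {K L : Type} [Fintype K] [Fintype L] [DecidableEq K] [DecidableEq L] (A : Matrix K L (MonoidAlgebra ℤ G)) (k : K) (l : L) (f : G → ℂ) :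
    ∑ h ∈ (toC A k l).coeff.support, (toC A k l).coeff h * f h =
      (A k l).coeff.sum fun h c => ((c : ℤ) : ℂ) * f h := by
  unfold Finsupp.sum
  refine Eq.trans (Finset.sum_subset (s₂ := (A k l).coeff.support) ?_ ?_) ?_
  · intro h hh
    rw [Finsupp.mem_support_iff] at hh ⊢
    intro h0
    apply hh
    rw [toC_coeff, h0, Int.cast_zero]
  · intro h _ hh
    rw [Finsupp.notMem_support_iff] at hh
    rw [hh, zero_mul]
  · refine Finset.sum_congr rfl fun h _ => ?_
    rw [toC_coeff]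

theorem r_mul (r : ℂ →L[ℝ] ℝ) (c : ℤ) (z : ℂ) : r ((c : ℂ) * z) = (c : ℝ) * r z := by
  have h : (c : ℂ) * z = (c : ℝ) • z := by
    rw [Complex.real_smul]
    push_cast
    rfl
  rw [h, map_smul, smul_eq_mul]

theorem cob_of_adj (X : FinRes G) (i : ℕ) {F : EE G (Fin (X.n i))}
    (hF : ContinuousLinearMap.adjoint (TT X i) F = 0) (r : ℂ →L[ℝ] ℝ) (g : G) (κ : Fin (X.n (i + 1))) :
    cobdry X i (fun g l => r (F (g⁻¹, l))) g κ = 0 := by
  have h1 : ContinuousLinearMap.adjoint (TT X i) F (g⁻¹, κ) = 0 := by rw [hF]; rfl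
  rw [TT, adj_apply] at h1
  have h2 : ∀ j, ∑ h ∈ (toC (X.d i) κ j).coeff.support,
      (starRingEnd ℂ) ((toC (X.d i) κ j).coeff h) * F (h⁻¹ * g⁻¹, j) =
      (X.d i κ j).coeff.sum fun h c => ((c : ℤ) : ℂ) * F (h⁻¹ * g⁻¹, j) := by
    intro j
    rw [← sum_toC (X.d i) κ j fun h => F (h⁻¹ * g⁻¹, j)]
    refine Finset.sum_congr rfl fun h _ => ?_
    rw [toC_coeff, map_intCast]
  rw [Finset.sum_congr rfl fun j _ => h2 j] at h1
  have h3 := congrArg r h1
  rw [map_zero, map_sum] at h3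
  rw [cobdry]
  refine Eq.trans (Finset.sum_congr rfl fun l _ => ?_) h3
  unfold Finsupp.sum
  rw [map_sum]
  refine Finset.sum_congr rfl fun s _ => ?_
  rw [r_mul]
  have e : (((g * s)⁻¹, l) : G × Fin (X.n i)) = (s⁻¹ * g⁻¹, l) := by rw [mul_inv_rev]
  exact congrArg (fun x => ((X.d i κ l).coeff s : ℝ) * r (F x)) e

theorem bd_of_ker (X : FinRes G) (i : ℕ) {F : EE G (Fin (X.n (i + 1)))} (hF : TT X i F = 0)
    (r : ℂ →L[ℝ] ℝ) (u : G) (l : Fin (X.n i)) :
    bdry X i (fun g l => r (F (g⁻¹, l))) u l = 0 := by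
  have h1 : TT X i F (u⁻¹, l) = 0 := by rw [hF]; rfl
  rw [TT, Rop_apply] at h1
  have h2 : ∀ k, cv (toC (X.d i) k l) (fun v => F (v, k)) u⁻¹ =
      (X.d i k l).coeff.sum fun h c => ((c : ℤ) : ℂ) * F (h * u⁻¹, k) := by
    intro k
    rw [← sum_toC (X.d i) k l fun h => F (h * u⁻¹, k)]
    rfl
  rw [Finset.sum_congr rfl fun k _ => h2 k] at h1
  have h3 := congrArg r h1
  rw [map_zero, map_sum] at h3
  rw [bdry]
  refine Eq.trans (Finset.sum_congr rfl fun k _ => ?_) h3
  unfold Finsupp.sum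
  rw [map_sum]
  refine Finset.sum_congr rfl fun s _ => ?_
  rw [r_mul]
  have e : (((u * s⁻¹)⁻¹, k) : G × Fin (X.n (i + 1))) = (s * u⁻¹, k) := by rw [mul_inv_rev, inv_inv]
  exact congrArg (fun x => ((X.d i k l).coeff s : ℝ) * r (F x)) e

theorem summ (X : FinRes G) (i : ℕ) (F : EE G (Fin (X.n i))) (r : ℂ →L[ℝ] ℝ) (hr : ∀ z, |r z| ≤ ‖z‖)
    (l : Fin (X.n i)) : Summable fun g : G => (r (F (g⁻¹, l))) ^ 2 := by
  have h1 := (memlp_two_iff _).1 F.2
  have hinj : Function.Injective (fun g : G => ((g⁻¹, l) : G × Fin (X.n i))) := by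
    intro a b hab
    rw [Prod.mk.injEq] at hab
    exact inv_injective hab.1
  refine Summable.of_nonneg_of_le (fun _ => sq_nonneg _) (fun g => ?_) (h1.comp_injective hinj)
  have := hr (F (g⁻¹, l))
  rw [← sq_abs]
  exact pow_le_pow_left₀ (abs_nonneg _) this 2

theorem eq_zero_of_r {n : ℕ} {F : EE G (Fin n)} (h : ∀ r : ℂ →L[ℝ] ℝ, (∀ z, |r z| ≤ ‖z‖) →
    (fun (g : G) (l : Fin n) => r (F (g⁻¹, l))) = 0) : F = 0 := by
  ext ⟨u, l⟩
  have h1 := congrFun (congrFun (h Complex.reCLM fun z => Complex.abs_re_le_norm z) u⁻¹) l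
  have h2 := congrFun (congrFun (h Complex.imCLM fun z => Complex.abs_im_le_norm z) u⁻¹) l
  simp only [inv_inv] at h1 h2
  exact Complex.ext h1 h2

theorem harm_zero (X : FinRes G) (hL : L2Zero X 0) {F : EE G (Fin (X.n 0))}
    (hF : ContinuousLinearMap.adjoint (TT X 0) F = 0) : F = 0 :=
  eq_zero_of_r fun r hr => hL _ (summ X 0 F r hr) trivial (cob_of_adj X 0 hF r)

theorem harm_succ (X : FinRes G) (j : ℕ) (hL : L2Zero X (j + 1)) {F : EE G (Fin (X.n (j + 1)))}
    (hF : ContinuousLinearMap.adjoint (TT X (j + 1)) F = 0) (hF' : TT X j F = 0) : F = 0 :=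
  eq_zero_of_r fun r hr => hL _ (summ X (j + 1) F r hr) (bd_of_ker X j hF' r) (cob_of_adj X (j + 1) hF r)

theorem dmul (X : FinRes G) (i : ℕ) : X.d (i + 1) * X.d i = 0 := by
  ext1 k l
  have h1 : (Pi.single k 1 ᵥ* X.d (i + 1)) ᵥ* X.d i = 0 := (X.exact_succ i _).2 ⟨_, rfl⟩
  rw [Matrix.vecMul_vecMul, Matrix.single_one_vecMul] at h1
  exact congrFun h1 l

theorem T_comp (X : FinRes G) (i : ℕ) : (TT X i).comp (TT X (i + 1)) = 0 := by
  rw [TT, TT, ← Rop_mul]
  have h1 : toC (X.d (i + 1)) * toC (X.d i) = 0 := by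
    have : toC (X.d (i + 1) * X.d i) = toC (X.d (i + 1)) * toC (X.d i) := Matrix.map_mul
    rw [← this, dmul]
    ext1 k l
    simp [toC]
  rw [h1]
  simp [Rop]

theorem adj_of_orth {n m : ℕ} (T : EE G (Fin n) →L[ℂ] EE G (Fin m)) {F : EE G (Fin m)}
    (hF : F ∈ (LinearMap.range (T : EE G (Fin n) →ₗ[ℂ] EE G (Fin m))).topologicalClosureᗮ) :
    ContinuousLinearMap.adjoint T F = 0 := by
  rw [Submodule.mem_orthogonal] at hF
  apply ext_inner_left ℂ
  intro v
  rw [ContinuousLinearMap.adjoint_inner_right, inner_zero_right]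
  exact hF _ (Submodule.le_topologicalClosure _ ⟨v, rfl⟩)

/-- the dimension of the closure of the boundaries -/
noncomputable def rk (X : FinRes G) (i : ℕ) : ℝ :=
  vd (LinearMap.range (TT X i : EE G (Fin (X.n (i + 1))) →ₗ[ℂ] EE G (Fin (X.n i))))

theorem T_eqv (X : FinRes G) (i : ℕ) : Eqv (TT X i) := Rop_eqv _

theorem rk_add (X : FinRes G) (i : ℕ) :
    vd (LinearMap.ker (TT X i : EE G (Fin (X.n (i + 1))) →ₗ[ℂ] EE G (Fin (X.n i)))) + rk X i = X.n (i + 1) := by
  have := ker_add_range (TT X i) (T_eqv X i)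
  rw [Fintype.card_fin] at this
  exact this

theorem rk_zero (X : FinRes G) (hL : L2Zero X 0) : rk X 0 = X.n 0 := by
  rw [rk, ← vd_closure]
  have h1 : (LinearMap.range (TT X 0 : EE G (Fin (X.n (0 + 1))) →ₗ[ℂ] EE G (Fin (X.n 0)))).topologicalClosureᗮ =
      ⊥ := by
    rw [Submodule.eq_bot_iff]
    intro F hF
    exact harm_zero X hL (adj_of_orth _ hF)
  have : CompleteSpace (LinearMap.range (TT X 0 : EE G (Fin (X.n (0 + 1))) →ₗ[ℂ]
      EE G (Fin (X.n 0)))).topologicalClosure := (Submodule.isClosed_topologicalClosure _).completeSpace_coe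
  rw [(Submodule.orthogonal_eq_bot_iff).1 h1, vd_top, Fintype.card_fin]

theorem rk_succ (X : FinRes G) (i : ℕ) (hL : L2Zero X (i + 1)) :
    rk X (i + 1) = vd (LinearMap.ker (TT X i : EE G (Fin (X.n (i + 1))) →ₗ[ℂ] EE G (Fin (X.n i)))) := by
  rw [rk, ← vd_closure]
  congr 1
  set R := (LinearMap.range (TT X (i + 1) : EE G (Fin (X.n (i + 1 + 1))) →ₗ[ℂ]
    EE G (Fin (X.n (i + 1))))).topologicalClosure with hR
  have hc : IsClosed (R : Set (EE G (Fin (X.n (i + 1))))) := Submodule.isClosed_topologicalClosure _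
  have : CompleteSpace R := hc.completeSpace_coe
  have hle : R ≤ LinearMap.ker (TT X i : EE G (Fin (X.n (i + 1))) →ₗ[ℂ] EE G (Fin (X.n i))) := by
    apply Submodule.topologicalClosure_minimal _ _ (ContinuousLinearMap.isClosed_ker (TT X i))
    rintro _ ⟨f, rfl⟩
    exact DFunLike.congr_fun (T_comp X i) f
  have hbot : Rᗮ ⊓ LinearMap.ker (TT X i : EE G (Fin (X.n (i + 1))) →ₗ[ℂ] EE G (Fin (X.n i))) = ⊥ := by
    rw [Submodule.eq_bot_iff]
    rintro F ⟨h1, h2⟩
    exact harm_succ X i hL (adj_of_orth _ h1) h2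
  have h3 := Submodule.sup_orthogonal_inf_of_hasOrthogonalProjection hle
  rw [hbot, sup_bot_eq] at h3
  exact h3

theorem rk_nonneg (X : FinRes G) (i : ℕ) : 0 ≤ rk X i := vd_nonneg _

/-- **The Euler characteristic is zero if all `ℓ²`-Betti numbers are zero.** -/
theorem euler_zero (X : FinRes G) (hL : ∀ i, L2Zero X i) : euler X = 0 := by
  have h0 : (X.n 0 : ℝ) = rk X 0 := (rk_zero X (hL 0)).symm
  have hs : ∀ i, (X.n (i + 1) : ℝ) = rk X (i + 1) + rk X i := by
    intro i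
    rw [rk_succ X i (hL (i + 1)), rk_add]
  have key : ∀ L : ℕ, ∑ i ∈ Finset.range (L + 1), (-1 : ℝ) ^ i * (X.n i : ℝ) = (-1) ^ L * rk X L := by
    intro L
    induction L with
    | zero => simp [h0]
    | succ L ih =>
      rw [Finset.sum_range_succ, ih, hs, pow_succ]
      ring
  have hlast : rk X X.len = 0 := by
    have h1 := hs X.len
    rw [X.n_eq_zero (X.len + 1) (Nat.lt_succ_self _), Nat.cast_zero] at h1
    have h2 := rk_nonneg X X.len
    have h3 := rk_nonneg X (X.len + 1)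
    linarith
  have h1 := key X.len
  rw [hlast, mul_zero] at h1
  rw [euler]
  exact_mod_cast h1

end Pool.Agent.R779.CT
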