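import Mathlib

/-!
# Powers of self-adjoint contractions
-/

set_option autoImplicit false

namespace Pool.Agent.R779.CT

open Filter Topology
open scoped InnerProductSpace

/-- If `S` is a self-adjoint contraction, and `‖S x‖ = ‖x‖` only for `x = 0`, then `S^{2k} x → 0`. -/
theorem pow_tendsto {E : Type*} [NormedAddCommGroup E] [InnerProductSpace ℂ E] [CompleteSpace E]
    (S : E →L[ℂ] E) (hsa : ∀ x y, ⟪S x, y⟫_ℂ = ⟪x, S y⟫_ℂ) (hle : ∀ x, ‖S x‖ ≤ ‖x‖)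
    (hne : ∀ x, ‖S x‖ = ‖x‖ → x = 0) (x : E) : Tendsto (fun k : ℕ => (S ^ (2 * k)) x) atTop (𝓝 0) := by
  have hstep : ∀ (n : ℕ) (y : E), (S ^ (n + 1)) y = S ((S ^ n) y) := by
    intro n y
    rw [pow_succ']
    rfl
  have hadj : ∀ (n : ℕ) (y z : E), ⟪(S ^ n) y, z⟫_ℂ = ⟪y, (S ^ n) z⟫_ℂ := by
    intro n
    induction n with
    | zero => intro y z; rfl
    | succ n ih =>
      intro y z
      rw [hstep, hsa, ih, pow_succ]
      rfl
  let b : ℕ → ℝ := fun n => ‖(S ^ n) x‖ ^ 2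
  have hanti : Antitone b := by
    refine antitone_nat_of_succ_le fun n => ?_
    show ‖(S ^ (n + 1)) x‖ ^ 2 ≤ ‖(S ^ n) x‖ ^ 2
    rw [hstep]
    exact pow_le_pow_left₀ (norm_nonneg _) (hle _) 2
  obtain ⟨β, hβ⟩ : ∃ β, Tendsto b atTop (𝓝 β) := by
    refine ⟨_, tendsto_atTop_ciInf hanti ⟨0, ?_⟩⟩
    rintro _ ⟨n, rfl⟩
    positivity
  have hβle : ∀ n, β ≤ b n := fun n => hanti.le_of_tendsto hβ n
  have hdiff : ∀ k m : ℕ, ‖(S ^ (2 * k)) x - (S ^ (2 * m)) x‖ ^ 2 = b (2 * k) + b (2 * m) - 2 * b (k + m) := by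
    intro k m
    rw [@norm_sub_sq ℂ]
    have h1 : ⟪(S ^ (2 * k)) x, (S ^ (2 * m)) x⟫_ℂ = ⟪(S ^ (k + m)) x, (S ^ (k + m)) x⟫_ℂ := by
      rw [hadj, hadj]
      congr 1
      rw [← ContinuousLinearMap.mul_apply, ← ContinuousLinearMap.mul_apply, ← pow_add, ← pow_add]
      congr 2
      ring
    rw [h1]
    have h2 : RCLike.re ⟪(S ^ (k + m)) x, (S ^ (k + m)) x⟫_ℂ = ‖(S ^ (k + m)) x‖ ^ 2 :=
      inner_self_eq_norm_sq _
    rw [h2]
    show _ = ‖(S ^ (2 * k)) x‖ ^ 2 + ‖(S ^ (2 * m)) x‖ ^ 2 - 2 * ‖(S ^ (k + m)) x‖ ^ 2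
    ring
  have hcau : CauchySeq fun k : ℕ => (S ^ (2 * k)) x := by
    rw [Metric.cauchySeq_iff']
    intro ε hε
    obtain ⟨K, hK⟩ := (Metric.tendsto_atTop.1 hβ) (ε ^ 2 / 2) (by positivity)
    refine ⟨K, fun k hk => ?_⟩
    rw [dist_eq_norm]
    have h1 := hdiff k K
    have h2 := hK (2 * k) (by omega)
    have h3 := hK (2 * K) (by omega)
    rw [Real.dist_eq] at h2 h3
    have h4 := hβle (2 * k)
    have h5 := hβle (2 * K)
    have h6 := hβle (k + K)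
    rw [abs_of_nonneg (by linarith)] at h2 h3
    have h7 : ‖(S ^ (2 * k)) x - (S ^ (2 * K)) x‖ ^ 2 < ε ^ 2 := by
      rw [h1]
      linarith
    exact lt_of_pow_lt_pow_left₀ 2 hε.le h7
  obtain ⟨y, hy⟩ := cauchySeq_tendsto_of_complete hcau
  have h1 : Tendsto (fun k : ℕ => (S ^ (2 * (k + 1))) x) atTop (𝓝 y) := hy.comp (tendsto_add_atTop_nat 1)
  have h2 : Tendsto (fun k : ℕ => S (S ((S ^ (2 * k)) x))) atTop (𝓝 (S (S y))) :=
    (S.continuous.tendsto _).comp ((S.continuous.tendsto _).comp hy)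
  have h3 : (fun k : ℕ => (S ^ (2 * (k + 1))) x) = fun k : ℕ => S (S ((S ^ (2 * k)) x)) := by
    funext k
    rw [← hstep, ← hstep]
    congr 2
  rw [h3] at h1
  have h4 : S (S y) = y := tendsto_nhds_unique h2 h1
  have h5 : ‖S y‖ = ‖y‖ := by
    refine le_antisymm (hle y) ?_
    calc ‖y‖ = ‖S (S y)‖ := by rw [h4]
      _ ≤ ‖S y‖ := hle _
  rw [hne y h5] at hy
  exact hy

end Pool.Agent.R779.CT
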