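import Pool.Agent.R779.CT.Ana
import Pool.Agent.R779.CT.Defs

/-!
# Coarse translations and `ℓ²`-Betti numbers
-/

set_option autoImplicit false

namespace Pool.Agent.R779.CT

open Filter Topology
open scoped ENNReal Matrix
open Pool.Agent.H919R4.ZS (FinRes)

variable {G : Type} [Group G]

theorem disperse_all {φ : ℕ → G → G} (hφ : CoarseTranslations φ) (g : G) :
    Tendsto (fun k => φ k g) atTop cofinite := by
  intro s hs
  rw [mem_cofinite] at hs
  have hB := hφ.lipschitz g
  have hF : (Set.image2 (fun (f b : G) => f * b⁻¹) sᶜ {u | ∃ k x, u = (φ k x)⁻¹ * φ k (x * g)}).Finite :=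
    hs.image2 _ hB
  have h1 := hφ.disperse hF.compl_mem_cofinite
  rw [mem_map] at h1 ⊢
  filter_upwards [h1] with k hk
  by_contra hcon
  refine hk ⟨φ k g, hcon, (φ k 1)⁻¹ * φ k g, ⟨k, 1, by rw [one_mul]⟩, ?_⟩
  group

theorem born {φ : ℕ → G → G} (hφ : CoarseTranslations φ) : Born φ := by
  intro s
  refine (hφ.lipschitz s).subset ?_
  rintro _ ⟨p, rfl⟩
  exact ⟨p.1, p.2, rfl⟩

theorem near {φ : ℕ → G → G} (hφ : CoarseTranslations φ) (k : ℕ) : Near (φ k) := by
  refine (hφ.near k).subset ?_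
  rintro _ ⟨g, rfl⟩
  exact ⟨g, rfl⟩

/-- pointwise convergence -/
theorem pointwise {n : ℕ} {h : G → Fin n → ℝ} (hs : ∀ κ, Summable fun g => h g κ ^ 2) {T : Set (Ch G n)}
    (hT : T.Finite) {u : ℕ → G} (hu : Tendsto u atTop cofinite) {t : ℕ → Ch G n} (ht : ∀ k, t k ∈ T) :
    Tendsto (fun k => ev h (sg (u k) • t k)) atTop (𝓝 0) := by
  have h1 : ∀ τ : Ch G n, Tendsto (fun k => |ev h (sg (u k) • τ)|) atTop (𝓝 0) := by
    intro τ
    obtain ⟨C, hC, hb⟩ := bdQ (G := G) τ
    have h2 : Summable fun x : G => ev h (sg x • τ) ^ 2 := by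
      refine summable_of_sq (ne_top_of_le_ne_top ?_ (hb h))
      exact ENNReal.mul_ne_top hC (nm_ne_top hs)
    have h3 : Tendsto (fun x : G => Real.sqrt (ev h (sg x • τ) ^ 2)) cofinite (𝓝 0) := by
      have := (Real.continuous_sqrt.tendsto 0).comp h2.tendsto_cofinite_zero
      rw [Real.sqrt_zero] at this
      exact this
    have h4 := h3.comp hu
    refine h4.congr fun k => ?_
    exact Real.sqrt_sq_eq_abs _
  have h5 : Tendsto (fun k => ∑ τ ∈ hT.toFinset, |ev h (sg (u k) • τ)|) atTop (𝓝 0) := by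
    have := tendsto_finsetSum hT.toFinset (fun τ _ => h1 τ)
    simpa using this
  refine squeeze_zero_norm (fun k => ?_) h5
  rw [Real.norm_eq_abs]
  exact Finset.single_le_sum (f := fun τ => |ev h (sg (u k) • τ)|) (fun _ _ => abs_nonneg _)
    (hT.mem_toFinset.2 (ht k))

theorem ev_dd (X : FinRes G) (i : ℕ) {h : G → Fin (X.n i) → ℝ} (hc : ∀ g κ, cobdry X i h g κ = 0)
    (y : Ch G (X.n (i + 1))) : ev h (dd X i y) = 0 := by
  have h1 : (ev h).comp (dd X i) = 0 := by
    refine hom_ext fun g κ => ?_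
    rw [AddMonoidHom.comp_apply, AddMonoidHom.zero_apply, bs_eq, dd_smul, ev_smul, ev_apply]
    have h2 : (dd X i (bs 1 κ) : Ch G (X.n i)) = X.d i κ := by
      rw [dd_apply, bs, sg_one]
      exact Matrix.single_one_vecMul _ _
    rw [h2]
    refine Eq.trans ?_ (hc g κ)
    refine Finset.sum_congr rfl fun l _ => ?_
    refine Finsupp.sum_congr fun s _ => ?_
    rw [zsmul_eq_mul]
  exact DFunLike.congr_fun h1 y

/-- **Coarse translations.** -/
theorem main {φ : ℕ → G → G} (hφ : CoarseTranslations φ) (X : FinRes G) (i : ℕ) : L2Zero X i := by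
  classical
  intro h hs hcyc hcob
  have hev := ev_dd X i hcob
  obtain ⟨m, hm⟩ := hφ.fibres
  have hB := born hφ
  have hN := near hφ
  cases i with
  | zero =>
    obtain ⟨t, q, hL, hrel⟩ := base X φ hN
    funext g κ
    have h1 : ∀ k, ev h (sg (φ k g) • t k g κ) = h g κ := by
      intro k
      have h2 := congrArg (ev h) (hrel k (bs g κ))
      rw [map_sub, hev, sub_eq_zero, mp_bs, ev_bs] at h2
      exact h2
    have h2 : Tendsto (fun k => ev h (sg (φ k g) • t k g κ)) atTop (𝓝 0) :=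
      pointwise hs hL.ft (disperse_all hφ g) fun k => ⟨(k, g, κ), rfl⟩
    have h3 : Tendsto (fun _ : ℕ => h g κ) atTop (𝓝 0) := h2.congr h1
    exact tendsto_nhds_unique tendsto_const_nhds h3
  | succ j =>
    obtain ⟨t0, q, hL0⟩ := exists_lvl X φ hB hN j
    obtain ⟨t, q', hL, hrel⟩ := step X φ hB hN j hL0
    -- the transformed chains
    let W : ℕ → G → Fin (X.n (j + 1)) → ℝ := fun k g κ => ev h (sg (φ k g) • t k g κ)
    obtain ⟨C, hC, hbd⟩ := bdT _ hL.ft m
    have hW1 : ∀ k κ, ∑' g, sq (W k g κ) ≤ C * nm h := fun k κ =>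
      hbd (φ k) (hm k) (fun g => t k g κ) (fun g => ⟨(k, g, κ), rfl⟩) h
    have hCn : C * nm h ≠ ⊤ := ENNReal.mul_ne_top hC (nm_ne_top hs)
    have hW2 : ∀ k κ, Summable fun g => W k g κ ^ 2 := fun k κ =>
      summable_of_sq (ne_top_of_le_ne_top hCn (hW1 k κ))
    have hW3 : ∀ k κ, ∑' g, W k g κ ^ 2 ≤ (C * nm h).toReal := by
      intro k κ
      have h1 := hW1 k κ
      rw [tsum_sq (hW2 k κ)] at h1
      exact (ENNReal.ofReal_le_iff_le_toReal hCn).1 h1
    have hW4 : ∀ g κ, Tendsto (fun k => W k g κ) atTop (𝓝 0) := fun g κ =>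
      pointwise hs hL.ft (disperse_all hφ g) fun k => ⟨(k, g, κ), rfl⟩
    -- the homotopy
    let v : ℕ → G → Fin (X.n j) → ℝ := fun k g l => ev h (sg g • q k g l)
    have hv : ∀ k l, Summable fun g => v k g l ^ 2 := by
      intro k l
      obtain ⟨D, hD, hbd2⟩ := bdT _ (hL0.fq k) 1
      refine summable_of_sq (ne_top_of_le_ne_top (ENNReal.mul_ne_top hD (nm_ne_top hs))
        (hbd2 id ?_ (fun g => q k g l) (fun g => ⟨(g, l), rfl⟩) h))
      intro u
      rw [show {g : G | id g = u} = {u} from rfl, Set.encard_singleton]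
      simp
    have hev2 : ∀ k (x : Ch G (X.n j)), ev h (mp id (q k) x) = ev (v k) x := by
      intro k x
      have h1 : (ev h).comp (mp id (q k)) = ev (v k) := by
        refine hom_ext fun g κ => ?_
        rw [AddMonoidHom.comp_apply, mp_bs, ev_bs]
        rfl
      exact DFunLike.congr_fun h1 x
    have hrel2 : ∀ k g κ, W k g κ = h g κ + ev (v k) (sg g • dd X j (bs 1 κ)) := by
      intro k g κ
      have h2 := congrArg (ev h) (hrel k (bs g κ))
      rw [map_sub, map_add, hev, zero_add, mp_bs, ev_bs, hev2, bs_eq g κ, dd_smul] at h2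
      show ev h (sg (φ k g) • t k g κ) = _
      linarith
    have hrow : ∀ κ : Fin (X.n (j + 1)), (dd X j (bs 1 κ) : Ch G (X.n j)) = X.d j κ := by
      intro κ
      rw [dd_apply, bs, sg_one]
      exact Matrix.single_one_vecMul _ _
    have hzero : ∀ k, ∑ κ, ∑' g, h g κ * ev (v k) (sg g • dd X j (bs 1 κ)) = 0 := by
      intro k
      choose S F h1 h2 h3 using fun κ : Fin (X.n (j + 1)) => pairing (hs κ) (hv k) (dd X j (bs 1 κ))
      have h4 : ∀ l, ∑ κ, F κ l = 0 := by
        intro l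
        have h5 := hasSum_sum fun κ (_ : κ ∈ Finset.univ) => h2 κ l
        have h6 : (fun u => ∑ κ, v k u l * co (fun g => h g κ) u l (dd X j (bs 1 κ))) = fun _ => 0 := by
          funext u
          rw [← Finset.mul_sum]
          have h7 := hcyc u l
          rw [bdry] at h7
          have h8 : ∑ κ, co (fun g => h g κ) u l (dd X j (bs 1 κ)) = 0 := by
            refine Eq.trans ?_ h7
            refine Finset.sum_congr rfl fun κ _ => ?_
            rw [co_apply, hrow]
          rw [h8, mul_zero]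
        rw [h6] at h5
        exact h5.unique hasSum_zero
      have h5 : ∀ κ, ∑' g, h g κ * ev (v k) (sg g • dd X j (bs 1 κ)) = ∑ l, F κ l := by
        intro κ
        rw [(h1 κ).tsum_eq, h3 κ]
      rw [Finset.sum_congr rfl fun κ _ => h5 κ, Finset.sum_comm]
      exact Finset.sum_eq_zero fun l _ => h4 l
    have hconst : ∀ k, ∑ κ, ∑' g, h g κ * W k g κ = ∑ κ, ∑' g, h g κ ^ 2 := by
      intro k
      have h1 : ∀ κ, ∑' g, h g κ * W k g κ =
          ∑' g, h g κ ^ 2 + ∑' g, h g κ * ev (v k) (sg g • dd X j (bs 1 κ)) := by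
        intro κ
        obtain ⟨S, F, h2, -, -⟩ := pairing (hs κ) (hv k) (dd X j (bs 1 κ))
        rw [← (hs κ).tsum_add h2.summable]
        refine tsum_congr fun g => ?_
        rw [hrel2]
        ring
      rw [Finset.sum_congr rfl fun κ _ => h1 κ, Finset.sum_add_distrib, hzero, add_zero]
    have hlim : Tendsto (fun k => ∑ κ, ∑' g, h g κ * W k g κ) atTop (𝓝 0) := by
      have h1 : ∀ κ ∈ (Finset.univ : Finset (Fin (X.n (j + 1)))),
          Tendsto (fun k => ∑' g, h g κ * W k g κ) atTop (𝓝 0) := fun κ _ =>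
        weak (hs κ) (fun k => hW2 k κ) (fun k => hW3 k κ) (fun g => hW4 g κ)
      have := tendsto_finsetSum Finset.univ h1
      simpa using this
    have h0 : ∑ κ, ∑' g, h g κ ^ 2 = 0 :=
      tendsto_nhds_unique (tendsto_const_nhds.congr fun k => (hconst k).symm) hlim
    rw [Finset.sum_eq_zero_iff_of_nonneg fun κ _ => tsum_nonneg fun g => sq_nonneg _] at h0
    funext g κ
    have h1 := h0 κ (Finset.mem_univ κ)
    have h2 := (hs κ).hasSum
    rw [h1, hasSum_zero_iff_of_nonneg fun g => sq_nonneg _] at h2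
    have h3 := congrFun h2 g
    exact pow_eq_zero_iff (two_ne_zero) |>.1 h3

end Pool.Agent.R779.CT
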