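import Pool.Agent.R779.CT.Defs

/-!
# Chain maps at bounded distance from a multiple of the identity
-/

set_option autoImplicit false

namespace Pool.Agent.R779.CT

open Filter
open scoped Matrix
open Pool.Agent.H919R4.ZS (FinRes augm)

variable {G : Type} [Group G]

/-- A chain map from the finite free resolution `X` (for instance, the integral cellular chains of the
universal cover of a finite aspherical complex) to itself, which is at finite distance from
`N` times the identity. It need not commute with the action of `G`. -/
structure NearMap (X : FinRes G) (N : ℤ) where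
  /-- the maps on the integral chains of dimension `j` -/
  f : ∀ j, (Fin (X.n j) → MonoidAlgebra ℤ G) →+ (Fin (X.n j) → MonoidAlgebra ℤ G)
  /-- they commute with the boundary maps `y ↦ y * X.d j` -/
  comm : ∀ j y, f (j + 1) y ᵥ* X.d j = f j (y ᵥ* X.d j)
  /-- the augmentation of `f x` is `N` times the augmentation of `x` -/
  mult : ∀ x, ∑ l, augm G (f 0 x l) * X.aug l = N * ∑ l, augm G (x l) * X.aug l
  /-- for every `κ` the chains `g⁻¹ f(g e_κ)`, `g ∈ G`, form a finite set; in particular `f(g e_κ)` is
  supported at bounded distance from the cell `g e_κ` -/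
  near : ∀ j (κ : Fin (X.n j)), {z | ∃ g : G, z =
    (MonoidAlgebra.single g⁻¹ 1 : MonoidAlgebra ℤ G) • f j (Pi.single κ (MonoidAlgebra.single g 1))}.Finite

/-- The value of the (infinite) cochain `h` on the chain `x`, that is, the sum of `c * h(g, κ)` over the
cells `(g, κ)`, where `c` is the coefficient of the cell `g e_κ` in `x`. -/
noncomputable def val {n : ℕ} (h : G → Fin n → ℝ) (x : Fin n → MonoidAlgebra ℤ G) : ℝ :=
  ∑ κ, (x κ).coeff.sum fun g c => (c : ℝ) * h g κ

/-- The operators on the square summable `i`-chains (with real coefficients) given by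
`f_k / N_k` converge to zero in the weak operator topology: for all square summable `a` and `h`,
the sum over all cells `e` of `a(e) * h(f_k(e)) / N_k` tends to zero. -/
def TendsWeaklyToZero (X : FinRes G) (i : ℕ) (N : ℕ → ℕ) (f : ∀ k, NearMap X (N k)) : Prop :=
  ∀ a h : G → Fin (X.n i) → ℝ, (∀ κ, Summable fun g => a g κ ^ 2) → (∀ κ, Summable fun g => h g κ ^ 2) →
    Tendsto (fun k => (∑ κ, ∑' g, a g κ * val h ((f k).f i (Pi.single κ (MonoidAlgebra.single g 1)))) / N k)
      atTop (nhds 0)

end Pool.Agent.R779.CT
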