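import Pool.Agent.R779.CT.Main
import Pool.Agent.R779.CT.NearDefs

/-!
# Chain maps at bounded distance from a multiple of the identity: sufficiency
-/

set_option autoImplicit false

namespace Pool.Agent.R779.CT

open Filter Topology
open scoped ENNReal Matrix
open Pool.Agent.H919R4.ZS (FinRes augm)

variable {G : Type} [Group G]

theorem val_eq {n : ℕ} (h : G → Fin n → ℝ) (x : Fin n → MonoidAlgebra ℤ G) : val h x = ev h x := by
  rw [val, ev_apply]
  refine Finset.sum_congr rfl fun κ _ => ?_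
  refine Finsupp.sum_congr fun s _ => ?_
  rw [zsmul_eq_mul]

theorem near_range {X : FinRes G} {N : ℤ} (F : NearMap X N) (j : ℕ) (κ : Fin (X.n j)) :
    (Set.range fun g : G => sg g⁻¹ • F.f j (bs g κ)).Finite := by
  refine (F.near j κ).subset ?_
  rintro _ ⟨g, rfl⟩
  exact ⟨g, rfl⟩

/-- the homotopy in one degree -/
structure Htp (X : FinRes G) {N : ℤ} (F : NearMap X N) (j : ℕ)
    (q : G → Fin (X.n j) → Ch G (X.n (j + 1))) : Prop where
  fq : (Set.range fun p : G × Fin (X.n j) => q p.1 p.2).Finite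
  rel : ∀ y, F.f j (dd X j y) - N • dd X j y = dd X j (mp id q (dd X j y))

theorem comm' {X : FinRes G} {N : ℤ} (F : NearMap X N) (j : ℕ) (y : Ch G (X.n (j + 1))) :
    dd X j (F.f (j + 1) y) = F.f j (dd X j y) := F.comm j y

theorem htp_base (X : FinRes G) {N : ℤ} (F : NearMap X N) : ∃ q, Htp X F 0 q := by
  let z : G → Fin (X.n 0) → Ch G (X.n 0) := fun g κ => sg g⁻¹ • F.f 0 (bs g κ) - N • bs 1 κ
  let q : G → Fin (X.n 0) → Ch G (X.n 1) := fun g κ => fill X 0 (z g κ)
  have hz : ∀ g κ, dd X 0 (q g κ) = z g κ := by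
    intro g κ
    refine dd_fill X 0 ((X.exact_zero _).1 ?_)
    have hsg : ∀ (u : G) (x : Ch G (X.n 0)), ∑ l, augm G ((sg u • x) l) * X.aug l =
        ∑ l, augm G (x l) * X.aug l := by
      intro u x
      refine Finset.sum_congr rfl fun l _ => ?_
      have : (sg u • x) l = sg u * x l := rfl
      rw [this, map_mul]
      have h2 : augm G (sg u) = 1 := by simp [augm, sg]
      rw [h2, one_mul]
    have h1 := F.mult (bs g κ)
    rw [bs_eq g κ, hsg g] at h1
    rw [← bs_eq g κ] at h1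
    have h3 := hsg g⁻¹ (F.f 0 (bs g κ))
    have h4 : ∑ l, augm G (z g κ l) * X.aug l =
        ∑ l, augm G ((sg g⁻¹ • F.f 0 (bs g κ)) l) * X.aug l - N * ∑ l, augm G ((bs 1 κ : Ch G (X.n 0)) l) * X.aug l := by
      rw [Finset.mul_sum, ← Finset.sum_sub_distrib]
      refine Finset.sum_congr rfl fun l _ => ?_
      show augm G ((sg g⁻¹ • F.f 0 (bs g κ)) l - N • (bs 1 κ : Ch G (X.n 0)) l) * X.aug l = _
      rw [map_sub, map_zsmul, zsmul_eq_mul]
      push_cast
      ring
    rw [h4, h3, h1, sub_self]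
  have hrel : ∀ x, F.f 0 x - N • x = dd X 0 (mp id q x) := by
    intro x
    have h : F.f 0 - N • AddMonoidHom.id _ = (dd X 0).comp (mp id q) := by
      refine hom_ext fun g κ => ?_
      rw [AddMonoidHom.sub_apply, AddMonoidHom.comp_apply, mp_bs, dd_smul, hz]
      show F.f 0 (bs g κ) - N • bs g κ = sg g • (sg g⁻¹ • F.f 0 (bs g κ) - N • bs 1 κ)
      rw [smul_sub, smul_smul, ← sg_mul, mul_inv_cancel, sg_one, one_smul, smul_comm, ← bs_eq]
    exact DFunLike.congr_fun h x
  refine ⟨q, ?_, fun y => hrel _⟩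
  have h1 : (Set.range fun p : G × Fin (X.n 0) => z p.1 p.2).Finite := by
    refine fin_union fun κ => ?_
    refine (fin_add (near_range F 0 κ) (Set.finite_range_const (c := -(N • (bs 1 κ : Ch G (X.n 0)))))).subset ?_
    rintro _ ⟨g, rfl⟩
    refine ⟨g, ?_⟩
    show sg g⁻¹ • F.f 0 (bs g κ) + -(N • bs 1 κ) = sg g⁻¹ • F.f 0 (bs g κ) - N • bs 1 κ
    rw [sub_eq_add_neg]
  refine (h1.image (fill X 0)).subset ?_
  rintro _ ⟨p, rfl⟩
  exact ⟨_, ⟨p, rfl⟩, rfl⟩

theorem htp_zero (X : FinRes G) {N : ℤ} (F : NearMap X N) :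
    ∃ q : G → Fin (X.n 0) → Ch G (X.n 1), ∀ x, F.f 0 x - N • x = dd X 0 (mp id q x) := by
  let z : G → Fin (X.n 0) → Ch G (X.n 0) := fun g κ => sg g⁻¹ • F.f 0 (bs g κ) - N • bs 1 κ
  let q : G → Fin (X.n 0) → Ch G (X.n 1) := fun g κ => fill X 0 (z g κ)
  have hz : ∀ g κ, dd X 0 (q g κ) = z g κ := by
    intro g κ
    refine dd_fill X 0 ((X.exact_zero _).1 ?_)
    have hsg : ∀ (u : G) (x : Ch G (X.n 0)), ∑ l, augm G ((sg u • x) l) * X.aug l =
        ∑ l, augm G (x l) * X.aug l := by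
      intro u x
      refine Finset.sum_congr rfl fun l _ => ?_
      have : (sg u • x) l = sg u * x l := rfl
      rw [this, map_mul]
      have h2 : augm G (sg u) = 1 := by simp [augm, sg]
      rw [h2, one_mul]
    have h1 := F.mult (bs g κ)
    rw [bs_eq g κ, hsg g] at h1
    rw [← bs_eq g κ] at h1
    have h3 := hsg g⁻¹ (F.f 0 (bs g κ))
    have h4 : ∑ l, augm G (z g κ l) * X.aug l =
        ∑ l, augm G ((sg g⁻¹ • F.f 0 (bs g κ)) l) * X.aug l - N * ∑ l, augm G ((bs 1 κ : Ch G (X.n 0)) l) * X.aug l := by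
      rw [Finset.mul_sum, ← Finset.sum_sub_distrib]
      refine Finset.sum_congr rfl fun l _ => ?_
      show augm G ((sg g⁻¹ • F.f 0 (bs g κ)) l - N • (bs 1 κ : Ch G (X.n 0)) l) * X.aug l = _
      rw [map_sub, map_zsmul, zsmul_eq_mul]
      push_cast
      ring
    rw [h4, h3, h1, sub_self]
  refine ⟨q, fun x => ?_⟩
  have h : F.f 0 - N • AddMonoidHom.id _ = (dd X 0).comp (mp id q) := by
    refine hom_ext fun g κ => ?_
    rw [AddMonoidHom.sub_apply, AddMonoidHom.comp_apply, mp_bs, dd_smul, hz]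
    show F.f 0 (bs g κ) - N • bs g κ = sg g • (sg g⁻¹ • F.f 0 (bs g κ) - N • bs 1 κ)
    rw [smul_sub, smul_smul, ← sg_mul, mul_inv_cancel, sg_one, one_smul, smul_comm, ← bs_eq]
  exact DFunLike.congr_fun h x

theorem htp_step (X : FinRes G) {N : ℤ} (F : NearMap X N) (j : ℕ)
    {q : G → Fin (X.n j) → Ch G (X.n (j + 1))} (h : Htp X F j q) :
    ∃ q', Htp X F (j + 1) q' ∧
      ∀ x, F.f (j + 1) x - N • x = dd X (j + 1) (mp id q' x) + mp id q (dd X j x) := by
  have hd : ∀ (g : G) (κ : Fin (X.n (j + 1))), sg g • dd X j (bs 1 κ) = dd X j (bs g κ) := by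
    intro g κ
    rw [bs_eq g κ, dd_smul]
  let z : G → Fin (X.n (j + 1)) → Ch G (X.n (j + 1)) := fun g κ =>
    sg g⁻¹ • (F.f (j + 1) (bs g κ) - N • bs g κ - mp id q (dd X j (bs g κ)))
  let q' : G → Fin (X.n (j + 1)) → Ch G (X.n (j + 1 + 1)) := fun g κ => fill X (j + 1) (z g κ)
  have hz : ∀ g κ, dd X (j + 1) (q' g κ) = z g κ := by
    intro g κ
    refine dd_fill X (j + 1) ((X.exact_succ j _).1 ?_)
    show dd X j (sg g⁻¹ • (F.f (j + 1) (bs g κ) - N • bs g κ - mp id q (dd X j (bs g κ)))) = 0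
    rw [dd_smul, map_sub, map_sub, comm', map_zsmul, ← h.rel, sub_self, smul_zero]
  have hrel : ∀ x, F.f (j + 1) x - N • x = dd X (j + 1) (mp id q' x) + mp id q (dd X j x) := by
    intro x
    have h1 : F.f (j + 1) - N • AddMonoidHom.id _ = (dd X (j + 1)).comp (mp id q') + (mp id q).comp (dd X j) := by
      refine hom_ext fun g κ => ?_
      rw [AddMonoidHom.sub_apply, AddMonoidHom.add_apply, AddMonoidHom.comp_apply, AddMonoidHom.comp_apply,
        mp_bs id q', dd_smul, hz]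
      show F.f (j + 1) (bs g κ) - N • bs g κ =
        sg g • (sg g⁻¹ • (F.f (j + 1) (bs g κ) - N • bs g κ - mp id q (dd X j (bs g κ)))) + _
      rw [smul_smul, ← sg_mul, mul_inv_cancel, sg_one, one_smul]
      abel
    exact DFunLike.congr_fun h1 x
  refine ⟨q', ⟨?_, ?_⟩, hrel⟩
  · have h1 : (Set.range fun p : G × Fin (X.n (j + 1)) => z p.1 p.2).Finite := by
      refine fin_union fun κ => ?_
      have a2 : (Set.range fun _ : G => -(N • (bs 1 κ : Ch G (X.n (j + 1))))).Finite := Set.finite_range_const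
      have a3 := fin_neg (fin_type_id h.fq (dd X j (bs 1 κ)))
      refine (fin_add (fin_add (near_range F (j + 1) κ) a2) a3).subset ?_
      rintro _ ⟨g, rfl⟩
      refine ⟨g, ?_⟩
      show sg g⁻¹ • F.f (j + 1) (bs g κ) + -(N • bs 1 κ) + -(sg g⁻¹ • mp id q (sg g • dd X j (bs 1 κ))) =
        sg g⁻¹ • (F.f (j + 1) (bs g κ) - N • bs g κ - mp id q (dd X j (bs g κ)))
      rw [hd, smul_sub, smul_sub, smul_comm (sg g⁻¹) N, sg_smul_bs, inv_mul_cancel]
      abel
    refine (h1.image (fill X (j + 1))).subset ?_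
    rintro _ ⟨p, rfl⟩
    exact ⟨_, ⟨p, rfl⟩, rfl⟩
  · intro y
    rw [hrel, dd_dd, map_zero, add_zero]

theorem exists_htp (X : FinRes G) {N : ℤ} (F : NearMap X N) (j : ℕ) : ∃ q, Htp X F j q := by
  induction j with
  | zero => exact htp_base X F
  | succ j ih =>
    obtain ⟨q, h⟩ := ih
    obtain ⟨q', h', -⟩ := htp_step X F j h
    exact ⟨q', h'⟩

/-- the pairing of a harmonic chain with its transform -/
theorem near_pair (X : FinRes G) {N : ℤ} (F : NearMap X N) (i : ℕ) {h : G → Fin (X.n i) → ℝ}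
    (hs : ∀ κ, Summable fun g => h g κ ^ 2) (hcyc : IsCycle X i h) (hcob : ∀ g κ, cobdry X i h g κ = 0) :
    ∑ κ, ∑' g, h g κ * ev h (F.f i (bs g κ)) = N * ∑ κ, ∑' g, h g κ ^ 2 := by
  classical
  have hev := ev_dd X i hcob
  cases i with
  | zero =>
    obtain ⟨q, hrel⟩ := htp_zero X F
    rw [Finset.mul_sum]
    refine Finset.sum_congr rfl fun κ _ => ?_
    rw [← tsum_mul_left]
    refine tsum_congr fun g => ?_
    have h2 := congrArg (ev h) (hrel (bs g κ))
    rw [map_sub, hev, sub_eq_zero, map_zsmul, ev_bs, zsmul_eq_mul] at h2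
    rw [h2]
    ring
  | succ j =>
    obtain ⟨q, hL0⟩ := exists_htp X F j
    obtain ⟨q', hL, hrel⟩ := htp_step X F j hL0
    let v : G → Fin (X.n j) → ℝ := fun g l => ev h (sg g • q g l)
    have hv : ∀ l, Summable fun g => v g l ^ 2 := by
      intro l
      obtain ⟨D, hD, hbd2⟩ := bdT _ hL0.fq 1
      refine summable_of_sq (ne_top_of_le_ne_top (ENNReal.mul_ne_top hD (nm_ne_top hs))
        (hbd2 id ?_ (fun g => q g l) (fun g => ⟨(g, l), rfl⟩) h))
      intro u
      rw [show {g : G | id g = u} = {u} from rfl, Set.encard_singleton]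
      simp
    have hev2 : ∀ x : Ch G (X.n j), ev h (mp id q x) = ev v x := by
      intro x
      have h1 : (ev h).comp (mp id q) = ev v := by
        refine hom_ext fun g κ => ?_
        rw [AddMonoidHom.comp_apply, mp_bs, ev_bs]
        rfl
      exact DFunLike.congr_fun h1 x
    have hrel2 : ∀ g κ, ev h (F.f (j + 1) (bs g κ)) = N * h g κ + ev v (sg g • dd X j (bs 1 κ)) := by
      intro g κ
      have h2 := congrArg (ev h) (hrel (bs g κ))
      rw [map_sub, map_add, hev, zero_add, map_zsmul, ev_bs, hev2, bs_eq g κ, dd_smul, zsmul_eq_mul,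
        ← bs_eq g κ] at h2
      linarith
    have hrow : ∀ κ : Fin (X.n (j + 1)), (dd X j (bs 1 κ) : Ch G (X.n j)) = X.d j κ := by
      intro κ
      rw [dd_apply, bs, sg_one]
      exact Matrix.single_one_vecMul _ _
    have hzero : ∑ κ, ∑' g, h g κ * ev v (sg g • dd X j (bs 1 κ)) = 0 := by
      choose S F h1 h2 h3 using fun κ : Fin (X.n (j + 1)) => pairing (hs κ) hv (dd X j (bs 1 κ))
      have h4 : ∀ l, ∑ κ, F κ l = 0 := by
        intro l
        have h5 := hasSum_sum fun κ (_ : κ ∈ Finset.univ) => h2 κ l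
        have h6 : (fun u => ∑ κ, v u l * co (fun g => h g κ) u l (dd X j (bs 1 κ))) = fun _ => 0 := by
          funext u
          rw [← Finset.mul_sum]
          have h7 := hcyc u l
          rw [bdry] at h7
          have h8 : ∑ κ, co (fun g => h g κ) u l (dd X j (bs 1 κ)) = 0 := by
            refine Eq.trans ?_ h7
            refine Finset.sum_congr rfl fun κ _ => ?_
            rw [co_apply, hrow]
          rw [h8, mul_zero]
        rw [h6] at h5
        exact h5.unique hasSum_zero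
      have h5 : ∀ κ, ∑' g, h g κ * ev v (sg g • dd X j (bs 1 κ)) = ∑ l, F κ l := by
        intro κ
        rw [(h1 κ).tsum_eq, h3 κ]
      rw [Finset.sum_congr rfl fun κ _ => h5 κ, Finset.sum_comm]
      exact Finset.sum_eq_zero fun l _ => h4 l
    have h1 : ∀ κ, ∑' g, h g κ * ev h (F.f (j + 1) (bs g κ)) =
        N * ∑' g, h g κ ^ 2 + ∑' g, h g κ * ev v (sg g • dd X j (bs 1 κ)) := by
      intro κ
      obtain ⟨S, F', h2, -, -⟩ := pairing (hs κ) hv (dd X j (bs 1 κ))
      rw [← tsum_mul_left, ← ((hs κ).mul_left (N : ℝ)).tsum_add h2.summable]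
      refine tsum_congr fun g => ?_
      rw [hrel2]
      ring
    rw [Finset.sum_congr rfl fun κ _ => h1 κ, Finset.sum_add_distrib, hzero, add_zero, Finset.mul_sum]

/-- **Sufficiency.** -/
theorem near_suff (X : FinRes G) (i : ℕ) (N : ℕ → ℕ) (hN : ∀ k, 0 < N k) (f : ∀ k, NearMap X (N k))
    (hf : TendsWeaklyToZero X i N f) : L2Zero X i := by
  intro h hs hcyc hcob
  have h1 := hf h h hs hs
  have h2 : ∀ k, (∑ κ, ∑' g, h g κ * val h ((f k).f i (Pi.single κ (MonoidAlgebra.single g 1)))) / N k =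
      ∑ κ, ∑' g, h g κ ^ 2 := by
    intro k
    have h3 := near_pair X (f k) i hs hcyc hcob
    have h4 : (∑ κ, ∑' g, h g κ * val h ((f k).f i (Pi.single κ (MonoidAlgebra.single g 1)))) =
        ∑ κ, ∑' g, h g κ * ev h ((f k).f i (bs g κ)) := by
      refine Finset.sum_congr rfl fun κ _ => tsum_congr fun g => ?_
      rw [val_eq]
      rfl
    rw [h4, h3]
    have h5 : ((N k : ℕ) : ℝ) ≠ 0 := by exact_mod_cast (hN k).ne'
    push_cast
    field_simp
  rw [funext h2] at h1
  have h0 : ∑ κ, ∑' g, h g κ ^ 2 = 0 := tendsto_nhds_unique tendsto_const_nhds h1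
  rw [Finset.sum_eq_zero_iff_of_nonneg fun κ _ => tsum_nonneg fun g => sq_nonneg _] at h0
  funext g κ
  have h1 := h0 κ (Finset.mem_univ κ)
  have h2 := (hs κ).hasSum
  rw [h1, hasSum_zero_iff_of_nonneg fun g => sq_nonneg _] at h2
  have h3 := congrFun h2 g
  exact pow_eq_zero_iff (two_ne_zero) |>.1 h3

end Pool.Agent.R779.CT
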