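import Pool.Agent.R779.CT.Near
import Pool.Agent.R779.CT.Euler
import Pool.Agent.R779.CT.Hilb

/-!
# Chain maps at bounded distance from a multiple of the identity: necessity
-/

set_option autoImplicit false

namespace Pool.Agent.R779.CT

open Filter Topology
open scoped InnerProductSpace InnerProduct ENNReal Matrix
open Pool.Agent.W649.ZL TH57.Thr.Ati
open Pool.Agent.H919R4.ZS (FinRes augm)

variable {G : Type} [Group G]

/-- the involution of the group ring -/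
noncomputable def iv (a : MonoidAlgebra ℤ G) : MonoidAlgebra ℤ G :=
  MonoidAlgebra.ofCoeff (a.coeff.mapDomain fun g => g⁻¹)

theorem iv_sum (a : MonoidAlgebra ℤ G) (f : G → ℂ) :
    ((iv a).coeff.sum fun h c => ((c : ℤ) : ℂ) * f h) = a.coeff.sum fun h c => ((c : ℤ) : ℂ) * f h⁻¹ := by
  rw [iv, MonoidAlgebra.coeff_ofCoeff, Finsupp.sum_mapDomain_index]
  · intro b
    simp
  · intro b m n
    push_cast
    ring

/-- the adjoint matrix -/
noncomputable def dg {K L : Type} (A : Matrix K L (MonoidAlgebra ℤ G)) : Matrix L K (MonoidAlgebra ℤ G) :=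
  fun l k => iv (A k l)

theorem Rop_dg {K L : Type} [Fintype K] [Fintype L] [DecidableEq K] [DecidableEq L]
    (A : Matrix K L (MonoidAlgebra ℤ G)) :
    Rop (toC (dg A)) = ContinuousLinearMap.adjoint (Rop (toC A)) := by
  ext F ⟨u, k⟩
  rw [Rop_apply, adj_apply]
  refine Finset.sum_congr rfl fun l _ => ?_
  have h1 : cv (toC (dg A) l k) (fun v => F (v, l)) u =
      (dg A l k).coeff.sum fun h c => ((c : ℤ) : ℂ) * F (h * u, l) := by
    rw [← sum_toC (dg A) l k fun h => F (h * u, l)]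
    rfl
  have h2 : ∑ h ∈ (toC A k l).coeff.support, (starRingEnd ℂ) ((toC A k l).coeff h) * F (h⁻¹ * u, l) =
      (A k l).coeff.sum fun h c => ((c : ℤ) : ℂ) * F (h⁻¹ * u, l) := by
    rw [← sum_toC A k l fun h => F (h⁻¹ * u, l)]
    refine Finset.sum_congr rfl fun h _ => ?_
    rw [toC_coeff, map_intCast]
  rw [h1, h2]
  exact iv_sum (A k l) fun h => F (h * u, l)

theorem Rop_add {K L : Type} [Fintype K] [Fintype L] [DecidableEq K] [DecidableEq L]
    (A B : Matrix K L (MonoidAlgebra ℂ G)) : Rop (A + B) = Rop A + Rop B := by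
  ext F ⟨u, j⟩
  show Rop (A + B) F (u, j) = Rop A F (u, j) + Rop B F (u, j)
  rw [Rop_apply, Rop_apply, Rop_apply, ← Finset.sum_add_distrib]
  refine Finset.sum_congr rfl fun k _ => ?_
  exact cv_add _ _ _ _

/-- `Rop` as an additive map -/
noncomputable def RopH (n : ℕ) : Matrix (Fin n) (Fin n) (MonoidAlgebra ℤ G) →+
    (EE G (Fin n) →L[ℂ] EE G (Fin n)) :=
  AddMonoidHom.mk' (fun A => Rop (toC A)) fun A B => by
    have : toC (A + B) = toC A + toC B :=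
      map_add (RingHom.mapMatrix (m := Fin n) (MonoidAlgebra.mapRingHom G (Int.castRingHom ℂ))) A B
    rw [this, Rop_add]

theorem toC_mul' {K L M : Type} [Fintype K] [Fintype L] [Fintype M] [DecidableEq K] [DecidableEq L]
    [DecidableEq M] (A : Matrix K L (MonoidAlgebra ℤ G)) (B : Matrix L M (MonoidAlgebra ℤ G)) :
    toC (A * B) = toC A * toC B := Matrix.map_mul

theorem RopH_one (n : ℕ) : RopH (G := G) n 1 = 1 := by
  show Rop (toC (1 : Matrix (Fin n) (Fin n) (MonoidAlgebra ℤ G))) = _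
  have : toC (1 : Matrix (Fin n) (Fin n) (MonoidAlgebra ℤ G)) = 1 :=
    map_one (RingHom.mapMatrix (m := Fin n) (MonoidAlgebra.mapRingHom G (Int.castRingHom ℂ)))
  rw [this, Rop_one]
  rfl

theorem RopH_pow (n : ℕ) (A : Matrix (Fin n) (Fin n) (MonoidAlgebra ℤ G)) (m : ℕ) :
    RopH n (A ^ m) = RopH n A ^ m := by
  induction m with
  | zero => rw [pow_zero, pow_zero, RopH_one]
  | succ m ih =>
    rw [pow_succ A, pow_succ' (RopH n A), ← ih]
    show Rop (toC (A ^ m * A)) = _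
    rw [toC_mul', Rop_mul]
    rfl

/-- the combinatorial Laplacian -/
noncomputable def lap (X : FinRes G) : (j : ℕ) → Matrix (Fin (X.n j)) (Fin (X.n j)) (MonoidAlgebra ℤ G)
  | 0 => dg (X.d 0) * X.d 0
  | j + 1 => X.d j * dg (X.d j) + dg (X.d (j + 1)) * X.d (j + 1)

theorem d_lap (X : FinRes G) (j : ℕ) : X.d j * lap X j = lap X (j + 1) * X.d j := by
  have h1 : lap X (j + 1) * X.d j = X.d j * dg (X.d j) * X.d j := by
    rw [lap, Matrix.add_mul, Matrix.mul_assoc (dg (X.d (j + 1))), dmul, Matrix.mul_zero, add_zero]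
  rw [h1]
  cases j with
  | zero => rw [lap, Matrix.mul_assoc]
  | succ j => rw [lap, Matrix.mul_add, ← Matrix.mul_assoc, dmul, Matrix.zero_mul, zero_add, Matrix.mul_assoc]

/-- `c - Δ` -/
noncomputable def mt (X : FinRes G) (c j : ℕ) : Matrix (Fin (X.n j)) (Fin (X.n j)) (MonoidAlgebra ℤ G) :=
  c • 1 - lap X j

theorem d_mt (X : FinRes G) (c j : ℕ) : X.d j * mt X c j = mt X c (j + 1) * X.d j := by
  rw [mt, mt, Matrix.mul_sub, Matrix.sub_mul, d_lap, Matrix.mul_smul, Matrix.smul_mul, Matrix.mul_one,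
    Matrix.one_mul]

theorem d_mt_pow (X : FinRes G) (c j k : ℕ) : X.d j * mt X c j ^ k = mt X c (j + 1) ^ k * X.d j := by
  induction k with
  | zero => rw [pow_zero, pow_zero, Matrix.mul_one, Matrix.one_mul]
  | succ k ih => rw [pow_succ, ← Matrix.mul_assoc, ih, Matrix.mul_assoc, d_mt, ← Matrix.mul_assoc, ← pow_succ]

/-- the augmentation -/
noncomputable def eps (X : FinRes G) (x : Ch G (X.n 0)) : ℤ := ∑ l, augm G (x l) * X.aug l

theorem eps_mt (X : FinRes G) (c : ℕ) (x : Ch G (X.n 0)) : eps X (x ᵥ* mt X c 0) = c * eps X x := by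
  have h1 : x ᵥ* mt X c 0 = c • x - (x ᵥ* dg (X.d 0)) ᵥ* X.d 0 := by
    rw [mt, Matrix.vecMul_sub, Matrix.vecMul_smul, Matrix.vecMul_one, lap, Matrix.vecMul_vecMul]
  have h2 : eps X ((x ᵥ* dg (X.d 0)) ᵥ* X.d 0) = 0 := (X.exact_zero _).2 ⟨_, rfl⟩
  have h3 : ∀ y z : Ch G (X.n 0), eps X (c • y - z) = c * eps X y - eps X z := by
    intro y z
    unfold eps
    rw [Finset.mul_sum, ← Finset.sum_sub_distrib]
    refine Finset.sum_congr rfl fun l _ => ?_
    show augm G (c • y l - z l) * X.aug l = _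
    rw [map_sub, map_nsmul, nsmul_eq_mul]
    ring
  rw [h1, h3, h2, sub_zero]

theorem eps_pow (X : FinRes G) (c k : ℕ) (x : Ch G (X.n 0)) :
    eps X (x ᵥ* mt X c 0 ^ k) = (c : ℤ) ^ k * eps X x := by
  induction k with
  | zero => rw [pow_zero, pow_zero, Matrix.vecMul_one, one_mul]
  | succ k ih => rw [pow_succ, ← Matrix.vecMul_vecMul, eps_mt, ih, pow_succ]; ring

theorem bs_vecMul {n : ℕ} (g : G) (κ : Fin n) (M : Matrix (Fin n) (Fin n) (MonoidAlgebra ℤ G)) :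
    (bs g κ : Ch G n) ᵥ* M = sg g • M κ := by
  rw [bs_eq, Matrix.smul_vecMul, bs, sg_one, Matrix.single_one_vecMul]
  rfl

/-- the chain map `(c - Δ)^k` -/
noncomputable def pw (X : FinRes G) (c k : ℕ) : NearMap X ((c ^ k : ℕ) : ℤ) where
  f j := ((mt X c j ^ k).vecMulLinear).toAddMonoidHom
  comm j y := by
    show (y ᵥ* mt X c (j + 1) ^ k) ᵥ* X.d j = (y ᵥ* X.d j) ᵥ* mt X c j ^ k
    rw [Matrix.vecMul_vecMul, Matrix.vecMul_vecMul, d_mt_pow]
  mult x := by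
    have := eps_pow X c k x
    push_cast
    exact this
  near j κ := by
    refine (Set.finite_singleton ((mt X c j ^ k) κ : Ch G (X.n j))).subset ?_
    rintro _ ⟨g, rfl⟩
    show sg g⁻¹ • ((bs g κ : Ch G (X.n j)) ᵥ* mt X c j ^ k) = _
    rw [bs_vecMul, smul_smul, ← sg_mul, inv_mul_cancel, sg_one, one_smul]

/-- real square summable functions as elements of the Hilbert space -/
noncomputable def FF {n : ℕ} (h : G → Fin n → ℝ) (hs : ∀ κ, Summable fun g => h g κ ^ 2) : EE G (Fin n) :=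
  ⟨fun x => ((h x.1⁻¹ x.2 : ℝ) : ℂ), by
    refine (memlp_two_iff _).2 ?_
    have h1 : Summable fun x : Fin n × G => h x.2⁻¹ x.1 ^ 2 := by
      rw [summable_prod_of_nonneg fun _ => sq_nonneg _]
      refine ⟨fun κ => ?_, ?_⟩
      · exact ((Equiv.inv G).summable_iff (f := fun g => h g κ ^ 2)).2 (hs κ)
      · exact (hasSum_fintype _).summable
    have h2 := ((Equiv.prodComm G (Fin n)).summable_iff (f := fun x : Fin n × G => h x.2⁻¹ x.1 ^ 2)).2 h1
    refine h2.congr fun x => ?_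
    show h x.1⁻¹ x.2 ^ 2 = _
    rw [Complex.norm_real, Real.norm_eq_abs, sq_abs]⟩

theorem FF_apply {n : ℕ} (h : G → Fin n → ℝ) (hs : ∀ κ, Summable fun g => h g κ ^ 2) (u : G) (κ : Fin n) :
    FF h hs (u, κ) = ((h u⁻¹ κ : ℝ) : ℂ) := rfl

theorem val_adj {n : ℕ} (h : G → Fin n → ℝ) (hs : ∀ κ, Summable fun g => h g κ ^ 2)
    (M : Matrix (Fin n) (Fin n) (MonoidAlgebra ℤ G)) (g : G) (κ : Fin n) :
    ContinuousLinearMap.adjoint (RopH n M) (FF h hs) (g⁻¹, κ) = ((ev h ((bs g κ : Ch G n) ᵥ* M) : ℝ) : ℂ) := by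
  show ContinuousLinearMap.adjoint (Rop (toC M)) (FF h hs) (g⁻¹, κ) = _
  rw [adj_apply, bs_vecMul, ev_smul, ev_apply]
  push_cast
  refine Finset.sum_congr rfl fun j _ => ?_
  have h2 : ∑ h' ∈ (toC M κ j).coeff.support, (starRingEnd ℂ) ((toC M κ j).coeff h') * FF h hs (h'⁻¹ * g⁻¹, j) =
      (M κ j).coeff.sum fun h' c => ((c : ℤ) : ℂ) * FF h hs (h'⁻¹ * g⁻¹, j) := by
    rw [← sum_toC M κ j fun h' => FF h hs (h'⁻¹ * g⁻¹, j)]
    refine Finset.sum_congr rfl fun h' _ => ?_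
    rw [toC_coeff, map_intCast]
  rw [h2]
  unfold Finsupp.sum
  push_cast
  refine Finset.sum_congr rfl fun s _ => ?_
  rw [FF_apply, zsmul_eq_mul]
  push_cast
  congr 2
  group

/-- the Laplacian operator -/
noncomputable def LL (X : FinRes G) (i : ℕ) : EE G (Fin (X.n i)) →L[ℂ] EE G (Fin (X.n i)) :=
  RopH (X.n i) (lap X i)

theorem LL_zero (X : FinRes G) (x : EE G (Fin (X.n 0))) :
    LL X 0 x = TT X 0 (ContinuousLinearMap.adjoint (TT X 0) x) := by
  show Rop (toC (dg (X.d 0) * X.d 0)) x = _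
  rw [toC_mul', Rop_mul, Rop_dg]
  rfl

theorem LL_succ (X : FinRes G) (j : ℕ) (x : EE G (Fin (X.n (j + 1)))) :
    LL X (j + 1) x = ContinuousLinearMap.adjoint (TT X j) (TT X j x) +
      TT X (j + 1) (ContinuousLinearMap.adjoint (TT X (j + 1)) x) := by
  show RopH (X.n (j + 1)) (X.d j * dg (X.d j) + dg (X.d (j + 1)) * X.d (j + 1)) x = _
  rw [map_add]
  show Rop (toC (X.d j * dg (X.d j))) x + Rop (toC (dg (X.d (j + 1)) * X.d (j + 1))) x = _
  rw [toC_mul', Rop_mul, Rop_dg, toC_mul', Rop_mul, Rop_dg]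
  rfl

theorem sa1 {E F : Type} [NormedAddCommGroup E] [InnerProductSpace ℂ E] [CompleteSpace E]
    [NormedAddCommGroup F] [InnerProductSpace ℂ F] [CompleteSpace F] (T : E →L[ℂ] F) (x y : F) :
    ⟪T (ContinuousLinearMap.adjoint T x), y⟫_ℂ =
      ⟪ContinuousLinearMap.adjoint T x, ContinuousLinearMap.adjoint T y⟫_ℂ :=
  (ContinuousLinearMap.adjoint_inner_right T _ _).symm

theorem sa2 {E F : Type} [NormedAddCommGroup E] [InnerProductSpace ℂ E] [CompleteSpace E]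
    [NormedAddCommGroup F] [InnerProductSpace ℂ F] [CompleteSpace F] (T : E →L[ℂ] F) (x y : F) :
    ⟪x, T (ContinuousLinearMap.adjoint T y)⟫_ℂ =
      ⟪ContinuousLinearMap.adjoint T x, ContinuousLinearMap.adjoint T y⟫_ℂ :=
  (ContinuousLinearMap.adjoint_inner_left T _ _).symm

/-- properties of the Laplacian -/
theorem LL_props (X : FinRes G) (i : ℕ) (hL : L2Zero X i) :
    (∀ x y, ⟪LL X i x, y⟫_ℂ = ⟪x, LL X i y⟫_ℂ) ∧ (∀ x, (⟪LL X i x, x⟫_ℂ).re = 0 → x = 0) ∧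
      (∀ x, 0 ≤ (⟪LL X i x, x⟫_ℂ).re) ∧ ∃ K : ℝ, ∀ x, ‖LL X i x‖ ^ 2 ≤ K * (⟪LL X i x, x⟫_ℂ).re := by
  cases i with
  | zero =>
    have h1 : ∀ x, (⟪LL X 0 x, x⟫_ℂ).re = ‖ContinuousLinearMap.adjoint (TT X 0) x‖ ^ 2 := by
      intro x
      rw [LL_zero, sa1]
      exact inner_self_eq_norm_sq (𝕜 := ℂ) _
    refine ⟨fun x y => ?_, fun x hx => ?_, fun x => ?_, ‖TT X 0‖ ^ 2, fun x => ?_⟩
    · rw [LL_zero, LL_zero, sa1, sa2]
    · rw [h1, sq_eq_zero_iff, norm_eq_zero] at hx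
      exact harm_zero X hL hx
    · rw [h1]
      positivity
    · rw [h1, LL_zero, ← mul_pow]
      exact pow_le_pow_left₀ (norm_nonneg _) (ContinuousLinearMap.le_opNorm _ _) 2
  | succ j =>
    have h1 : ∀ x, (⟪LL X (j + 1) x, x⟫_ℂ).re = ‖TT X j x‖ ^ 2 +
        ‖ContinuousLinearMap.adjoint (TT X (j + 1)) x‖ ^ 2 := by
      intro x
      rw [LL_succ, inner_add_left, sa1, ContinuousLinearMap.adjoint_inner_left, Complex.add_re]
      congr 1
      · exact inner_self_eq_norm_sq (𝕜 := ℂ) _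
      · exact inner_self_eq_norm_sq (𝕜 := ℂ) _
    refine ⟨fun x y => ?_, fun x hx => ?_, fun x => ?_,
      2 * (‖ContinuousLinearMap.adjoint (TT X j)‖ ^ 2 + ‖TT X (j + 1)‖ ^ 2), fun x => ?_⟩
    · rw [LL_succ, LL_succ, inner_add_left, inner_add_right]
      congr 1
      · rw [ContinuousLinearMap.adjoint_inner_left, ContinuousLinearMap.adjoint_inner_right]
      · rw [sa1, sa2]
    · rw [h1] at hx
      have e1 : ‖TT X j x‖ ^ 2 = 0 := by nlinarith [sq_nonneg ‖TT X j x‖, sq_nonneg ‖ContinuousLinearMap.adjoint (TT X (j + 1)) x‖]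
      have e2 : ‖ContinuousLinearMap.adjoint (TT X (j + 1)) x‖ ^ 2 = 0 := by
        nlinarith [sq_nonneg ‖TT X j x‖, sq_nonneg ‖ContinuousLinearMap.adjoint (TT X (j + 1)) x‖]
      rw [sq_eq_zero_iff, norm_eq_zero] at e1 e2
      exact harm_succ X j hL e2 e1
    · rw [h1]
      positivity
    · rw [h1, LL_succ]
      set a := ‖TT X j x‖
      set b := ‖ContinuousLinearMap.adjoint (TT X (j + 1)) x‖
      set p := ‖ContinuousLinearMap.adjoint (TT X j)‖
      set q := ‖TT X (j + 1)‖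
      have e1 : ‖ContinuousLinearMap.adjoint (TT X j) (TT X j x)‖ ≤ p * a := ContinuousLinearMap.le_opNorm _ _
      have e2 : ‖TT X (j + 1) (ContinuousLinearMap.adjoint (TT X (j + 1)) x)‖ ≤ q * b :=
        ContinuousLinearMap.le_opNorm _ _
      have e3 := (norm_add_le (ContinuousLinearMap.adjoint (TT X j) (TT X j x))
        (TT X (j + 1) (ContinuousLinearMap.adjoint (TT X (j + 1)) x))).trans (add_le_add e1 e2)
      have e4 := pow_le_pow_left₀ (norm_nonneg _) e3 2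
      refine e4.trans ?_
      have e5 : (p * a + q * b) ^ 2 ≤ 2 * (p * a) ^ 2 + 2 * (q * b) ^ 2 := by nlinarith [sq_nonneg (p * a - q * b)]
      have e6 : 0 ≤ (p * b) ^ 2 := sq_nonneg _
      have e7 : 0 ≤ (q * a) ^ 2 := sq_nonneg _
      nlinarith

theorem sum_le_norm {n : ℕ} (F : EE G (Fin n)) (κ : Fin n) (hsm : Summable fun g : G => (F (g⁻¹, κ)).re ^ 2) :
    ∑' g : G, (F (g⁻¹, κ)).re ^ 2 ≤ ‖F‖ ^ 2 := by
  classical
  refine hsm.tsum_le_of_sum_le fun s => ?_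
  have h1 := lp.sum_rpow_le_norm_rpow (p := 2) (by norm_num) F
    (s.map ⟨fun g => ((g⁻¹, κ) : G × Fin n), fun a b hab => by
      rw [Prod.mk.injEq] at hab
      exact inv_injective hab.1⟩)
  simp only [ENNReal.toReal_ofNat, Real.rpow_ofNat, Finset.sum_map, Function.Embedding.coeFn_mk] at h1
  refine le_trans (Finset.sum_le_sum fun g _ => ?_) h1
  rw [← sq_abs]
  exact pow_le_pow_left₀ (abs_nonneg _) (Complex.abs_re_le_norm _) 2

/-- **Necessity.** -/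
theorem near_nec (X : FinRes G) (i : ℕ) (hL : L2Zero X i) :
    ∃ (N : ℕ → ℕ) (f : ∀ k, NearMap X (N k)), (∀ k, 0 < N k) ∧ TendsWeaklyToZero X i N f := by
  obtain ⟨hsa, hker, hpos, K, hK⟩ := LL_props X i hL
  obtain ⟨c, hc⟩ := exists_nat_gt (max K 0)
  have hcK : K < c := (le_max_left _ _).trans_lt hc
  have hc0 : (0 : ℝ) < c := (le_max_right _ _).trans_lt hc
  have hc0' : 0 < c := by exact_mod_cast hc0
  have hcC : (c : ℂ) ≠ 0 := by exact_mod_cast hc0'.ne'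
  -- the contraction
  let S : EE G (Fin (X.n i)) →L[ℂ] EE G (Fin (X.n i)) := 1 - (c : ℂ)⁻¹ • LL X i
  have hS : ∀ x, S x = x - (c : ℂ)⁻¹ • LL X i x := fun x => rfl
  have hS1 : ∀ x y, ⟪S x, y⟫_ℂ = ⟪x, S y⟫_ℂ := by
    intro x y
    rw [hS, hS, inner_sub_left, inner_sub_right, inner_smul_left, inner_smul_right, hsa, map_inv₀,
      map_natCast]
  have hS2 : ∀ x, ‖S x‖ ^ 2 ≤ ‖x‖ ^ 2 - (c : ℝ)⁻¹ * (⟪LL X i x, x⟫_ℂ).re := by
    intro x
    have e1 : ‖S x‖ ^ 2 = ‖x‖ ^ 2 - 2 * ((c : ℝ)⁻¹ * (⟪LL X i x, x⟫_ℂ).re) + ((c : ℝ)⁻¹ * ‖LL X i x‖) ^ 2 := by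
      have e2 : (c : ℂ)⁻¹ = (((c : ℝ)⁻¹ : ℝ) : ℂ) := by push_cast; rfl
      have e3 : RCLike.re ⟪x, (c : ℂ)⁻¹ • LL X i x⟫_ℂ = (c : ℝ)⁻¹ * (⟪LL X i x, x⟫_ℂ).re := by
        rw [inner_smul_right, ← hsa, e2]
        exact Complex.re_ofReal_mul _ _
      have e4 : ‖(c : ℂ)⁻¹ • LL X i x‖ = (c : ℝ)⁻¹ * ‖LL X i x‖ := by
        rw [norm_smul, norm_inv, Complex.norm_natCast]
      rw [hS, @norm_sub_sq ℂ, e3, e4]
    rw [e1, mul_pow]
    have e3 := hK x
    have e4 := hpos x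
    have e5 : ((c : ℝ)⁻¹) ^ 2 * ‖LL X i x‖ ^ 2 ≤ ((c : ℝ)⁻¹) ^ 2 * (c * (⟪LL X i x, x⟫_ℂ).re) := by
      refine mul_le_mul_of_nonneg_left ?_ (sq_nonneg _)
      exact e3.trans (mul_le_mul_of_nonneg_right hcK.le e4)
    have e6 : ((c : ℝ)⁻¹) ^ 2 * (c * (⟪LL X i x, x⟫_ℂ).re) = (c : ℝ)⁻¹ * (⟪LL X i x, x⟫_ℂ).re := by
      field_simp
    linarith
  have hS3 : ∀ x, ‖S x‖ ≤ ‖x‖ := by
    intro x
    have e1 := hS2 x
    have e2 : 0 ≤ (c : ℝ)⁻¹ * (⟪LL X i x, x⟫_ℂ).re := mul_nonneg (inv_nonneg.2 hc0.le) (hpos x)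
    exact le_of_sq_le_sq (by linarith) (norm_nonneg _)
  have hS4 : ∀ x, ‖S x‖ = ‖x‖ → x = 0 := by
    intro x hx
    have e1 := hS2 x
    rw [hx] at e1
    have e2 : 0 ≤ (c : ℝ)⁻¹ * (⟪LL X i x, x⟫_ℂ).re := mul_nonneg (inv_nonneg.2 hc0.le) (hpos x)
    have e3 : (c : ℝ)⁻¹ * (⟪LL X i x, x⟫_ℂ).re = 0 := by linarith
    rcases mul_eq_zero.1 e3 with h | h
    · exact absurd h (inv_ne_zero hc0.ne')
    · exact hker x h
  have hT : RopH (X.n i) (mt X c i) = (c : ℂ) • S := by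
    ext1 x
    rw [mt, map_sub, map_nsmul, RopH_one]
    show (c • (1 : EE G (Fin (X.n i)) →L[ℂ] EE G (Fin (X.n i)))) x - LL X i x = (c : ℂ) • S x
    rw [hS, smul_sub, smul_smul, mul_inv_cancel₀ hcC, one_smul]
    congr 1
    rw [← Nat.cast_smul_eq_nsmul ℂ]
    rfl
  have hSadj : ContinuousLinearMap.adjoint S = S := by
    symm
    rw [ContinuousLinearMap.eq_adjoint_iff]
    exact hS1
  have hTk : ∀ m : ℕ, ContinuousLinearMap.adjoint (RopH (X.n i) (mt X c i ^ m)) = (c : ℂ) ^ m • S ^ m := by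
    intro m
    rw [RopH_pow, hT, smul_pow, ← ContinuousLinearMap.star_eq_adjoint, star_smul, star_pow, star_pow,
      ContinuousLinearMap.star_eq_adjoint, hSadj]
    congr 2
    exact Complex.conj_natCast c
  refine ⟨fun k => c ^ (2 * k), fun k => pw X c (2 * k), fun k => pow_pos hc0' _, ?_⟩
  intro a h ha hs
  have hlim := pow_tendsto S hS1 hS3 hS4 (FF h hs)
  have hval : ∀ k g κ, val h ((pw X c (2 * k)).f i (Pi.single κ (MonoidAlgebra.single g 1))) =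
      (c : ℝ) ^ (2 * k) * ((S ^ (2 * k)) (FF h hs) (g⁻¹, κ)).re := by
    intro k g κ
    rw [val_eq]
    have e1 := val_adj h hs (mt X c i ^ (2 * k)) g κ
    rw [hTk] at e1
    have e2 : ev h ((bs g κ : Ch G (X.n i)) ᵥ* mt X c i ^ (2 * k)) =
        (((c : ℂ) ^ (2 * k) • S ^ (2 * k)) (FF h hs) (g⁻¹, κ)).re := by
      rw [e1, Complex.ofReal_re]
    refine Eq.trans e2 ?_
    show ((c : ℂ) ^ (2 * k) * ((S ^ (2 * k)) (FF h hs) (g⁻¹, κ))).re = _
    have e3 : (c : ℂ) ^ (2 * k) = (((c : ℝ) ^ (2 * k) : ℝ) : ℂ) := by push_cast; rfl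
    rw [e3]
    exact Complex.re_ofReal_mul _ _
  let w : ℕ → Fin (X.n i) → G → ℝ := fun k κ g => ((S ^ (2 * k)) (FF h hs) (g⁻¹, κ)).re
  have hw1 : ∀ k κ, Summable fun g => w k κ g ^ 2 := fun k κ =>
    summ X i ((S ^ (2 * k)) (FF h hs)) Complex.reCLM (fun z => Complex.abs_re_le_norm z) κ
  have hnorm : ∀ m : ℕ, ‖(S ^ m) (FF h hs)‖ ≤ ‖FF h hs‖ := by
    intro m
    induction m with
    | zero => exact le_rfl
    | succ m ih =>
      rw [pow_succ']
      exact (hS3 _).trans ih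
  have hw2 : ∀ k κ, ∑' g, w k κ g ^ 2 ≤ ‖FF h hs‖ ^ 2 := by
    intro k κ
    refine (sum_le_norm _ κ (hw1 k κ)).trans ?_
    exact pow_le_pow_left₀ (norm_nonneg _) (hnorm _) 2
  have hw3 : ∀ κ g, Tendsto (fun k => w k κ g) atTop (𝓝 0) := by
    intro κ g
    refine squeeze_zero_norm (fun k => ?_) (tendsto_zero_iff_norm_tendsto_zero.1 hlim)
    rw [Real.norm_eq_abs]
    exact (Complex.abs_re_le_norm _).trans (lp.norm_apply_le_norm (by norm_num) _ _)
  have key : Tendsto (fun k => ∑ κ, ∑' g, a g κ * w k κ g) atTop (𝓝 0) := by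
    have h1 : ∀ κ ∈ (Finset.univ : Finset (Fin (X.n i))),
        Tendsto (fun k => ∑' g, a g κ * w k κ g) atTop (𝓝 0) := fun κ _ =>
      weak (ha κ) (fun k => hw1 k κ) (fun k => hw2 k κ) (fun g => hw3 κ g)
    have := tendsto_finsetSum Finset.univ h1
    simpa using this
  refine key.congr fun k => ?_
  have hck : ((c : ℝ) ^ (2 * k)) ≠ 0 := pow_ne_zero _ hc0.ne'
  rw [Finset.sum_div]
  refine Finset.sum_congr rfl fun κ _ => ?_
  rw [← tsum_div_const]
  refine tsum_congr fun g => ?_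
  rw [hval, Nat.cast_pow]
  show a g κ * ((S ^ (2 * k)) (FF h hs) (g⁻¹, κ)).re = _
  generalize ((S ^ (2 * k)) (FF h hs) (g⁻¹, κ)).re = r
  field_simp

/-- **The criterion.** -/
theorem near_iff (X : FinRes G) (i : ℕ) : L2Zero X i ↔
    ∃ (N : ℕ → ℕ) (f : ∀ k, NearMap X (N k)), (∀ k, 0 < N k) ∧ TendsWeaklyToZero X i N f :=
  ⟨near_nec X i, fun ⟨N, f, hN, hf⟩ => near_suff X i N hN f hf⟩

end Pool.Agent.R779.CT
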